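import Pool.Agent.Helper3.CA.Link

/-!
# Acyclicity
-/

namespace Pool.Agent.Helper3.CA

open SimpleGraph Pool.Agent.Helper3.TD

variable {X Y : Type*}

namespace Data

variable {P : Data X Y}

/-- The class of a point at stage `m`. -/
def comp (P : Data X Y) (m : ℕ) (x : X) : (P.Glt m).ConnectedComponent :=
  (P.Glt m).connectedComponentMk x

lemma comp_eq {m : ℕ} {x x' : X} : P.comp m x = P.comp m x' ↔ (P.Glt m).Reachable x x' :=
  ConnectedComponent.eq

/-- The boundary, modulo the classes. -/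
noncomputable def bdm (P : Data X Y) (m : ℕ) :
    (Sym2 X →₀ ZMod 2) →ₗ[ZMod 2] ((P.Glt m).ConnectedComponent →₀ ZMod 2) :=
  (Finsupp.lmapDomain (ZMod 2) (ZMod 2) (P.comp m)).comp bd

lemma map_ends (m : ℕ) (a b : X) : Finsupp.lmapDomain (ZMod 2) (ZMod 2) (P.comp m)
    (ends s(a, b)) = Finsupp.single (P.comp m a) 1 + Finsupp.single (P.comp m b) 1 := by
  rw [ends_mk, map_add, Finsupp.lmapDomain_apply, Finsupp.lmapDomain_apply,
    Finsupp.mapDomain_single, Finsupp.mapDomain_single]

lemma bdm_single (m : ℕ) (a b : X) : P.bdm m (Finsupp.single s(a, b) (1 : ZMod 2)) =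
    Finsupp.single (P.comp m a) 1 + Finsupp.single (P.comp m b) 1 := by
  unfold bdm
  rw [LinearMap.comp_apply, bd_single, ← ends_mk, map_ends]

lemma map_bdm_eq_zero {m : ℕ} {c : Sym2 X →₀ ZMod 2}
    (φ : ((P.Glt m).ConnectedComponent →₀ ZMod 2) →ₗ[ZMod 2] ZMod 2)
    (h : ∀ a b, s(a, b) ∈ c.support →
      φ (Finsupp.single (P.comp m a) 1 + Finsupp.single (P.comp m b) 1) = 0) :
    φ (P.bdm m c) = 0 := by
  unfold bdm
  rw [LinearMap.comp_apply]
  refine map_bd_eq_zero (φ.comp (Finsupp.lmapDomain (ZMod 2) (ZMod 2) (P.comp m))) ?_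
  intro e he
  induction e with
  | _ a b =>
    rw [LinearMap.comp_apply, map_ends]
    exact h a b he

lemma bdm_support {m : ℕ} {c : Sym2 X →₀ ZMod 2} {q : (P.Glt m).ConnectedComponent}
    (hq : q ∈ (P.bdm m c).support) : ∃ x b, s(x, b) ∈ c.support ∧ P.comp m x = q := by
  classical
  by_contra hcon
  push Not at hcon
  rw [Finsupp.mem_support_iff] at hq
  apply hq
  refine map_bdm_eq_zero (c := c) (Finsupp.lapply (R := ZMod 2) q) ?_
  intro a b hab
  have h1 := hcon a b hab
  have h2 := hcon b a (by rw [Sym2.eq_swap]; exact hab)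
  rw [Finsupp.lapply_apply, Finsupp.add_apply, Finsupp.single_apply, Finsupp.single_apply,
    if_neg h1, if_neg h2, add_zero]

lemma bdm_eq_zero {m : ℕ} {c : Sym2 X →₀ ZMod 2}
    (h : ∀ a b, s(a, b) ∈ c.support → P.comp m a = P.comp m b) : P.bdm m c = 0 := by
  classical
  by_contra h0
  obtain ⟨q, hq⟩ := Finsupp.support_nonempty_iff.2 h0
  rw [Finsupp.mem_support_iff] at hq
  apply hq
  refine map_bdm_eq_zero (c := c) (Finsupp.lapply (R := ZMod 2) q) ?_
  intro a b hab
  rw [h a b hab, add_self_chain, map_zero]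

/-- A chain whose boundary is `a + b` modulo the classes joins `a` to `b` with their help. -/
lemma conn_of_bdm {m : ℕ} {K : SimpleGraph X} {c : Sym2 X →₀ ZMod 2}
    (hc : ∀ e ∈ c.support, e ∈ K.edgeSet) {a b : X}
    (hb : P.bdm m c = Finsupp.single (P.comp m a) 1 + Finsupp.single (P.comp m b) 1) :
    (P.Glt m ⊔ K).Reachable a b := by
  classical
  by_contra hcon
  let Z : Set (P.Glt m).ConnectedComponent :=
    {q | ∃ x, P.comp m x = q ∧ (P.Glt m ⊔ K).Reachable a x}
  have hZ : ∀ x, P.comp m x ∈ Z ↔ (P.Glt m ⊔ K).Reachable a x := by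
    intro x
    constructor
    · rintro ⟨x', h1, h2⟩
      exact h2.trans (Reachable.mono le_sup_left (comp_eq.1 h1))
    · exact fun h => ⟨x, rfl, h⟩
  have h1 : sumOn Z (P.bdm m c) = 0 := by
    refine map_bdm_eq_zero (c := c) (sumOn Z) ?_
    intro u v he
    have he' := hc _ he
    rw [mem_edgeSet] at he'
    have he2 : (P.Glt m ⊔ K).Adj u v := Or.inr he'
    rw [map_add, sumOn_single, sumOn_single]
    by_cases hu : (P.Glt m ⊔ K).Reachable a u
    · have hv : (P.Glt m ⊔ K).Reachable a v := hu.trans he2.reachable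
      rw [if_pos ((hZ u).2 hu), if_pos ((hZ v).2 hv)]
      decide
    · have hv : ¬ (P.Glt m ⊔ K).Reachable a v := fun hv => hu (hv.trans he2.symm.reachable)
      rw [if_neg (fun h => hu ((hZ u).1 h)), if_neg (fun h => hv ((hZ v).1 h))]
      decide
  rw [hb, map_add, sumOn_single, sumOn_single, if_pos ((hZ a).2 (Reachable.refl a)),
    if_neg (fun h => hcon ((hZ b).1 h))] at h1
  exact absurd h1 (by decide)

/-- The chain consists of edges of stage `m` that have level `m` at `y`. -/
def InPart (P : Data X Y) (m : ℕ) (y : Y) (c : Sym2 X →₀ ZMod 2) : Prop :=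
  ∀ a b, s(a, b) ∈ c.support → P.Tm m a b ∧ P.Lv m a y ∧ P.Lv m b y

/-- A cycle modulo the classes, of edges of stage `m` with a common node, is empty. -/
lemma part_zero (h : P.Ok) {m : ℕ} {y : Y} {c : Sym2 X →₀ ZMod 2} (hc : P.InPart m y c)
    (hb : P.bdm m c = 0) : c = 0 := by
  classical
  by_contra h0
  let kS : Sym2 X → ℕ ×ₗ (ℕ ×ₗ ℕ) :=
    Sym2.lift ⟨fun a b => P.key m y a b, fun a b => key_symm m y a b⟩
  obtain ⟨e, he, hmax⟩ := Finset.exists_max_image c.support kS (Finsupp.support_nonempty_iff.2 h0)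
  induction e with
  | _ a b =>
    have h1 : P.bdm m (c + Finsupp.single s(a, b) 1) =
        Finsupp.single (P.comp m a) 1 + Finsupp.single (P.comp m b) 1 := by
      rw [map_add, hb, zero_add, bdm_single]
    obtain ⟨hT, ha, hb'⟩ := hc a b he
    refine hT.2.2 y ha hb' (conn_of_bdm ?_ h1)
    intro e' he'
    induction e' with
    | _ c' d' =>
      have hne : s(c', d') ≠ s(a, b) := by
        intro heq
        rw [heq, Finsupp.mem_support_iff, Finsupp.add_apply, Finsupp.single_eq_same,
          zmod_two_of_ne_zero (Finsupp.mem_support_iff.1 he)] at he'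
        exact he' (by decide)
      have hmem : s(c', d') ∈ c.support := by
        rw [Finsupp.mem_support_iff, Finsupp.add_apply, Finsupp.single_apply,
          if_neg (fun h => hne h.symm), add_zero] at he'
        exact Finsupp.mem_support_iff.2 he'
      obtain ⟨h2, h3, h4⟩ := hc c' d' hmem
      have hlt : P.key m y c' d' < P.key m y a b := by
        refine lt_of_le_of_ne (hmax _ hmem) fun heq => hne (key_inj h h3.1 h4.1 ha.1 hb'.1 heq)
      rw [mem_edgeSet]
      exact ⟨h2.1, ⟨h3, h4⟩, hlt, (key_symm m y d' c').trans_lt hlt⟩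

/-- A class with points of level `m` on both sides of an edge has one at both ends. -/
lemma witness (h : P.Ok) {z z' : Y} (hzz : P.S.Adj z z') {m : ℕ} {x x' : X} {y : Y}
    (hx : P.Lv m x z) (hx' : P.Lv m x' y) (hy : (P.S.deleteEdges {s(z, z')}).Reachable z' y)
    (hr : (P.Glt m).Reachable x x') :
    ∃ x'', (P.Glt m).Reachable x x'' ∧ P.Lv m x'' z ∧ P.Lv m x'' z' := by
  rcases sd_or (y' := z') hx with h1 | h1
  · have h2 : P.S.Reachable z (P.r x') := by
      obtain ⟨_, w, _⟩ := hx
      exact Reachable.trans ⟨w⟩ (glt_node hr)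
    rcases sd_or' (y' := z') h2 with h3 | h3
    · rw [show s(z, z') = s(z', z) from Sym2.eq_swap] at hy
      obtain ⟨h4, h5, _⟩ := lv_cross h hzz.symm hx' hy h3
      exact ⟨x', hr, h5, h4⟩
    · obtain ⟨x'', k, h4, h5, h6, h7⟩ := glt_cross h hzz hr h1 h3
      exact ⟨x'', h4, h6.mono h5.le, h7.mono h5.le⟩
  · obtain ⟨h4, h5, _⟩ := lv_cross h hzz hx (Reachable.refl _) h1
    exact ⟨x, Reachable.refl _, h4, h5⟩

/-- Cycles are sums of cycles in the parts. -/
lemma gen (h : P.Ok) (m : ℕ) : ∀ n, ∀ H : Finset Y, H.card = n →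
    (P.S.induce (H : Set Y)).Preconnected → ∀ c : Sym2 X →₀ ZMod 2,
      (∀ a b, s(a, b) ∈ c.support → P.Tm m a b ∧ ∃ y ∈ H, P.Lv m a y ∧ P.Lv m b y) →
      P.bdm m c = 0 → c = 0 := by
  classical
  intro n
  induction n with
  | zero =>
    intro H hH _ c hc _
    rw [Finset.card_eq_zero] at hH
    subst hH
    by_contra h0
    obtain ⟨e, he⟩ := Finsupp.support_nonempty_iff.2 h0
    induction e with
    | _ a b =>
      obtain ⟨_, y, hy, _⟩ := hc a b he
      exact absurd hy (Finset.notMem_empty y)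
  | succ n ih =>
    intro H hH hHc c hc hb
    by_cases hn : n = 0
    · subst hn
      rw [zero_add, Finset.card_eq_one] at hH
      obtain ⟨z, rfl⟩ := hH
      refine part_zero (y := z) h ?_ hb
      intro a b hab
      obtain ⟨h1, y', h2, h3⟩ := hc a b hab
      rw [Finset.mem_singleton] at h2
      subst h2
      exact ⟨h1, h3⟩
    · -- a leaf
      have hnt : Nontrivial (H : Set Y) := by
        rw [← Fintype.one_lt_card_iff_nontrivial]
        simp only [Finset.coe_sort_coe, Fintype.card_coe]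
        omega
      have hne : Nonempty (H : Set Y) := inferInstance
      have hcon : (P.S.induce (H : Set Y)).Connected := ⟨hHc⟩
      obtain ⟨⟨z, hz⟩, hv⟩ := hcon.exists_connected_induce_compl_singleton_of_finite_nontrivial
      have hzH : z ∈ H := hz
      set H' : Finset Y := H.erase z with hH'
      have hcard : H'.card = n := by rw [hH', Finset.card_erase_of_mem hzH]; omega
      have hH'c : (P.S.induce (H' : Set Y)).Preconnected := by
        rintro ⟨y, hy⟩ ⟨y', hy'⟩
        have hyH : y ∈ H ∧ y ≠ z := by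
          have := Finset.mem_coe.1 hy
          rw [hH', Finset.mem_erase] at this
          exact ⟨this.2, this.1⟩
        have hyH' : y' ∈ H ∧ y' ≠ z := by
          have := Finset.mem_coe.1 hy'
          rw [hH', Finset.mem_erase] at this
          exact ⟨this.2, this.1⟩
        have h1 := hv.preconnected ⟨⟨y, hyH.1⟩, by simpa using hyH.2⟩
          ⟨⟨y', hyH'.1⟩, by simpa using hyH'.2⟩
        let φ : ((P.S.induce (H : Set Y)).induce {(⟨z, hz⟩ : (H : Set Y))}ᶜ) →g
            P.S.induce (H' : Set Y) :=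
          { toFun := fun t => ⟨t.1.1, by
              have h1 : t.1 ≠ ⟨z, hz⟩ := t.2
              have h2 : t.1.1 ≠ z := fun h => h1 (Subtype.ext h)
              rw [Finset.mem_coe, hH', Finset.mem_erase]
              exact ⟨h2, t.1.2⟩⟩
            map_rel' := fun {a b} hab => hab }
        exact h1.map φ
      have hzH' : z ∉ H' := by simp [hH']
      -- the neighbour of the leaf
      obtain ⟨y₀, hy₀⟩ : ∃ y₀, y₀ ∈ H' := by
        rw [← Finset.Nonempty, ← Finset.card_pos]; omega
      obtain ⟨z', hz'H, hzz'⟩ : ∃ z' ∈ H', P.S.Adj z z' := by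
        obtain ⟨w⟩ := hHc ⟨z, hzH⟩ ⟨y₀, Finset.mem_of_mem_erase hy₀⟩
        cases w with
        | nil => exact absurd hy₀ hzH'
        | @cons _ b _ hadj _ =>
          refine ⟨b.1, ?_, hadj⟩
          rw [hH', Finset.mem_erase]
          have hadj' : P.S.Adj z b.1 := hadj
          exact ⟨hadj'.ne', b.2⟩
      -- split the chain
      let Q : Sym2 X → Prop := fun e => ∃ a b, e = s(a, b) ∧ ∃ y ∈ H', P.Lv m a y ∧ P.Lv m b y
      let c₂ := c.filter Q
      let c₁ := c.filter (fun e => ¬ Q e)
      have hsum : c₂ + c₁ = c := Finsupp.filter_add_filter_not c Q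
      have hc₁ : P.InPart m z c₁ := by
        intro a b hab
        rw [Finsupp.support_filter, Finset.mem_filter] at hab
        obtain ⟨h1, y, hy, hy'⟩ := hc a b hab.1
        refine ⟨h1, ?_⟩
        by_cases hyz : y = z
        · subst hyz; exact hy'
        · exact absurd ⟨a, b, rfl, y, by rw [hH', Finset.mem_erase]; exact ⟨hyz, hy⟩, hy'⟩ hab.2
      have hc₂ : ∀ a b, s(a, b) ∈ c₂.support → P.Tm m a b ∧
          ∃ y ∈ H', P.Lv m a y ∧ P.Lv m b y := by
        intro a b hab
        rw [Finsupp.support_filter, Finset.mem_filter] at hab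
        obtain ⟨h1, _⟩ := hc a b hab.1
        refine ⟨h1, ?_⟩
        obtain ⟨a', b', heq, y, hy, hy'⟩ := hab.2
        rw [Sym2.eq_iff] at heq
        rcases heq with ⟨rfl, rfl⟩ | ⟨rfl, rfl⟩
        · exact ⟨y, hy, hy'⟩
        · exact ⟨y, hy, hy'.2, hy'.1⟩
      have hbeq : P.bdm m c₁ = P.bdm m c₂ := by
        have h1 : P.bdm m c₂ + P.bdm m c₁ = 0 := by rw [← map_add, hsum, hb]
        have h2 : P.bdm m c₁ + (P.bdm m c₂ + P.bdm m c₁) = P.bdm m c₁ := by rw [h1, add_zero]
        rw [← h2, ← add_assoc, add_comm (P.bdm m c₁) (P.bdm m c₂), add_assoc, add_self_chain,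
          add_zero]
      -- supports of the boundaries
      have hin : ∀ q ∈ (P.bdm m c₁).support, ∃ x, P.comp m x = q ∧ P.Lv m x z ∧ P.Lv m x z' := by
        intro q hq
        obtain ⟨x, b, hb1, hxq⟩ := bdm_support hq
        rw [hbeq] at hq
        obtain ⟨x', b', hb2, hxq'⟩ := bdm_support hq
        obtain ⟨_, h1, _⟩ := hc₁ x b hb1
        obtain ⟨_, y, hy, h2, _⟩ := hc₂ x' b' hb2
        have h3 : (P.S.deleteEdges {s(z, z')}).Reachable z' y :=
          reach_delete hH'c hz'H hy (fun h3 => hzH' h3.1)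
        obtain ⟨x'', h4, h5, h6⟩ := witness h hzz' h1 h2 h3 (comp_eq.1 (hxq.trans hxq'.symm))
        exact ⟨x'', (comp_eq.2 h4).symm.trans hxq, h5, h6⟩
      have hsum0 : sumOn Set.univ (P.bdm m c₁) = 0 := by
        refine map_bdm_eq_zero (c := c₁) (sumOn Set.univ) ?_
        intro u v _
        rw [map_add, sumOn_single, sumOn_single, if_pos (Set.mem_univ _),
          if_pos (Set.mem_univ _)]
        decide
      -- conclusion from a correction
      have hfin : ∀ g : Sym2 X →₀ ZMod 2, P.InPart m z g → P.InPart m z' g →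
          P.bdm m g = P.bdm m c₁ → c = 0 := by
        intro g hg hg' hbg
        have h1 : c₂ + g = 0 := by
          refine ih H' hcard hH'c (c₂ + g) ?_ ?_
          · intro a b hab
            rcases Finset.mem_union.1 (Finsupp.support_add hab) with h1 | h1
            · exact hc₂ a b h1
            · exact ⟨(hg a b h1).1, z', hz'H, (hg' a b h1).2⟩
          · rw [map_add, hbg, ← hbeq, add_self_chain]
        have h2 : c₁ + g = 0 := by
          refine part_zero (m := m) (y := z) h ?_ ?_
          · intro a b hab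
            rcases Finset.mem_union.1 (Finsupp.support_add hab) with h1 | h1
            · exact hc₁ a b h1
            · exact hg a b h1
          · rw [map_add, hbg, add_self_chain]
        have h3 : c₂ + c₁ = (c₂ + g) + (c₁ + g) := by
          have h4 : (c₂ + g) + (c₁ + g) = c₂ + c₁ + (g + g) := by abel
          rw [h4, add_self_chain, add_zero]
        rw [← hsum, h3, h1, h2, add_zero]
      have hthree : ∀ A ∈ (P.bdm m c₁).support, ∀ B ∈ (P.bdm m c₁).support,
          ∀ C ∈ (P.bdm m c₁).support, A = B ∨ B = C ∨ A = C := by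
        intro A hA B hB C hC
        obtain ⟨a, rfl, ha, ha'⟩ := hin A hA
        obtain ⟨b, rfl, hb, hb'⟩ := hin B hB
        obtain ⟨c, rfl, hc, hc'⟩ := hin C hC
        have key : ∀ {u v : X}, P.Lv m u z → P.Lv m u z' → P.Lv m v z → P.Lv m v z' →
            ((P.Sd z z' u ∧ P.Sd z z' v) ∨ (P.Sd z' z u ∧ P.Sd z' z v)) →
            P.comp m u = P.comp m v := by
          rintro u v hu hu' hv hv' (⟨h1, h2⟩ | ⟨h1, h2⟩)
          · exact comp_eq.2 (same_side h hzz' hu' hv' h1 h2)
          · exact comp_eq.2 (same_side h hzz'.symm hu hv h1 h2)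
        rcases sd_or (y' := z') ha with h1 | h1 <;> rcases sd_or (y' := z') hb with h2 | h2 <;>
          rcases sd_or (y' := z') hc with h3 | h3
        · exact Or.inl (key ha ha' hb hb' (Or.inl ⟨h1, h2⟩))
        · exact Or.inl (key ha ha' hb hb' (Or.inl ⟨h1, h2⟩))
        · exact Or.inr (Or.inr (key ha ha' hc hc' (Or.inl ⟨h1, h3⟩)))
        · exact Or.inr (Or.inl (key hb hb' hc hc' (Or.inr ⟨h2, h3⟩)))
        · exact Or.inr (Or.inl (key hb hb' hc hc' (Or.inl ⟨h2, h3⟩)))
        · exact Or.inr (Or.inr (key ha ha' hc hc' (Or.inr ⟨h1, h3⟩)))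
        · exact Or.inl (key ha ha' hb hb' (Or.inr ⟨h1, h2⟩))
        · exact Or.inl (key ha ha' hb hb' (Or.inr ⟨h1, h2⟩))
      rcases two_points hsum0 hthree with h0 | ⟨A, hA, B, hB, hAB, heq⟩
      · refine hfin 0 ?_ ?_ (by rw [map_zero, h0])
        · intro a b hab
          simp at hab
        · intro a b hab
          simp at hab
      · obtain ⟨a, rfl, ha, ha'⟩ := hin A hA
        obtain ⟨b, rfl, hb, hb'⟩ := hin B hB
        obtain ⟨a', b', h1, h2, h3, h4, h5⟩ := link' h hzz' ha ha' hb hb'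
          (fun hr => hAB (comp_eq.2 hr))
        have hsupp : ∀ c d, s(c, d) ∈ (Finsupp.single s(a', b') (1 : ZMod 2)).support →
            (c = a' ∧ d = b') ∨ (c = b' ∧ d = a') := by
          intro c d hcd
          have h6 : s(c, d) = s(a', b') := by
            by_contra hne
            rw [Finsupp.mem_support_iff, Finsupp.single_apply, if_neg (fun h => hne h.symm)] at hcd
            exact hcd rfl
          rwa [Sym2.eq_iff] at h6
        refine hfin (Finsupp.single s(a', b') 1) ?_ ?_ ?_
        · intro c d hcd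
          rcases hsupp c d hcd with ⟨rfl, rfl⟩ | ⟨rfl, rfl⟩
          · exact ⟨h1, h2⟩
          · exact ⟨h1.symm, h2.symm⟩
        · intro c d hcd
          rcases hsupp c d hcd with ⟨rfl, rfl⟩ | ⟨rfl, rfl⟩
          · exact ⟨h1, h3⟩
          · exact ⟨h1.symm, h3.symm⟩
        · rw [bdm_single, heq, ← comp_eq.2 h4, ← comp_eq.2 h5]

/-- The roots of the points of a component of `G` are in one component of `S`. -/
lemma root_reach (h : P.Ok) {x x' : X} (hr : P.G.Reachable x x') :
    P.S.Reachable (P.r x) (P.r x') := by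
  refine reach_closed (H := P.G) (Z := {z | P.S.Reachable (P.r x) (P.r z)}) ?_ hr
    (Reachable.refl _)
  intro a b hab ha
  obtain ⟨_, t, ⟨_, w, _⟩, ⟨_, w', _⟩⟩ := exists_level h hab
  exact (show P.S.Reachable (P.r x) (P.r a) from ha).trans ⟨w.reverse.append w'⟩

/-- `T` is acyclic. -/
lemma T_acyclic (h : P.Ok) : P.T.IsAcyclic := by
  classical
  intro x₀ p hp
  have hc := TD.Data.chain_apply p hp.isTrail
  set c₀ := TD.Data.chain p with hcdef
  have hmem : ∀ e, e ∈ c₀.support ↔ e ∈ p.edges := by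
    intro e
    rw [Finsupp.mem_support_iff, hc e]
    by_cases he : e ∈ p.edges
    · rw [if_pos he]
      exact ⟨fun _ => he, fun _ => by decide⟩
    · rw [if_neg he]
      exact ⟨fun h => absurd rfl h, fun h => absurd h he⟩
  have hb : bd c₀ = 0 := by rw [hcdef, TD.Data.bd_chain, add_self_chain]
  -- levels
  have hlev : ∀ e ∈ p.edges, ∃ k, ∀ a b, e = s(a, b) → P.Tm k a b := by
    intro e he
    induction e with
    | _ a b =>
      obtain ⟨k, hk⟩ := p.adj_of_mem_edges he
      refine ⟨k, ?_⟩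
      intro a' b' heq
      rw [Sym2.eq_iff] at heq
      rcases heq with ⟨rfl, rfl⟩ | ⟨rfl, rfl⟩
      · exact hk
      · exact hk.symm
  choose! L hL using hlev
  have hne : p.edges.toFinset.Nonempty := by
    have h2 : p.edges ≠ [] := by
      intro h2
      have := hp.three_le_length
      rw [← p.length_edges, h2] at this
      simp at this
    obtain ⟨e, he⟩ := List.exists_mem_of_ne_nil _ h2
    exact ⟨e, by simpa using he⟩
  obtain ⟨e₀, he₀, hmax⟩ := Finset.exists_max_image p.edges.toFinset L hne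
  rw [List.mem_toFinset] at he₀
  set m := L e₀ with hm
  -- the part of level `m`
  let Q : Sym2 X → Prop := fun e => L e = m
  let c := c₀.filter Q
  let c' := c₀.filter (fun e => ¬ Q e)
  have hsum : c + c' = c₀ := Finsupp.filter_add_filter_not c₀ Q
  have hc' : P.bdm m c' = 0 := by
    apply bdm_eq_zero
    intro a b hab
    rw [Finsupp.support_filter, Finset.mem_filter] at hab
    have h1 := (hmem _).1 hab.1
    have h2 : L s(a, b) ≤ m := hmax _ (List.mem_toFinset.2 h1)
    have h3 : L s(a, b) < m := lt_of_le_of_ne h2 hab.2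
    have h4 := hL _ h1 a b rfl
    rw [comp_eq]
    obtain ⟨h5, ⟨y, h6⟩, _⟩ := h4
    exact Adj.reachable ⟨h5, _, h3, y, h6⟩
  have hbc : P.bdm m c = 0 := by
    have h1 : P.bdm m c₀ = 0 := by
      unfold bdm
      rw [LinearMap.comp_apply, hb, map_zero]
    rw [← hsum, map_add, hc', add_zero] at h1
    exact h1
  have h0 : c ≠ 0 := by
    intro h0
    have h1 : e₀ ∈ c.support := by
      rw [Finsupp.support_filter, Finset.mem_filter]
      exact ⟨(hmem _).2 he₀, rfl⟩
    rw [h0] at h1
    simp at h1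
  have hcT : ∀ a b, s(a, b) ∈ c.support → s(a, b) ∈ p.edges ∧ P.Tm m a b := by
    intro a b hab
    rw [Finsupp.support_filter, Finset.mem_filter] at hab
    have h1 := (hmem _).1 hab.1
    have h2 : L s(a, b) = m := hab.2
    exact ⟨h1, h2 ▸ hL _ h1 a b rfl⟩
  -- nodes
  have hnY : Nonempty Y := ⟨P.r x₀⟩
  have hnode : ∀ e ∈ p.edges, ∃ y, P.S.Reachable (P.r x₀) y ∧
      ∀ a b, e = s(a, b) → P.Lv (L e) a y ∧ P.Lv (L e) b y := by
    intro e he
    induction e with
    | _ a b =>
      obtain ⟨_, ⟨y, h1, h2⟩, _⟩ := hL _ he a b rfl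
      refine ⟨y, ?_, ?_⟩
      · have h3 : P.T.Reachable x₀ a :=
          ⟨p.takeUntil a (p.fst_mem_support_of_mem_edges he)⟩
        have h4 := root_reach h (h3.mono T_le)
        obtain ⟨_, w, _⟩ := id h1
        exact h4.trans ⟨w.reverse⟩
      · intro a' b' heq
        rw [Sym2.eq_iff] at heq
        rcases heq with ⟨rfl, rfl⟩ | ⟨rfl, rfl⟩
        · exact ⟨h1, h2⟩
        · exact ⟨h2, h1⟩
  choose! N hN1 hN2 using hnode
  obtain ⟨H, _, hH2, hH3⟩ := TD.Data.exists_hull (S := P.S) (P.r x₀) (p.edges.map N) (by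
    intro y hy
    obtain ⟨e, he, rfl⟩ := List.mem_map.1 hy
    exact hN1 e he)
  refine h0 (gen h m _ H rfl hH3 c ?_ hbc)
  intro a b hab
  obtain ⟨h1, h2⟩ := hcT a b hab
  refine ⟨h2, N s(a, b), hH2 _ (List.mem_map.2 ⟨_, h1, rfl⟩), ?_⟩
  have h3 : L s(a, b) = m := (hL _ h1 a b rfl).level h2
  have h4 := hN2 _ h1 a b rfl
  rwa [h3] at h4

end Data

end Pool.Agent.Helper3.CA
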