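import Pool.Agent.Helper3.CA.Acyc
import Pool.Agent.Helper3.TD.Borel

/-!
# The graph `T` is Borel
-/

namespace Pool.Agent.Helper3.CA

open SimpleGraph MeasureTheory Pool.Agent.Helper3.TD

/-- The least number with a Borel property depends on the parameter in a Borel way. -/
lemma measurable_sInf_nat {α : Type*} [MeasurableSpace α] {R : ℕ → α → Prop}
    (h : ∀ n, Measurable (R n)) : Measurable fun a => sInf {n | R n a} := by
  classical
  refine measurable_to_countable' fun k => ?_
  have heq : (fun a => sInf {n | R n a}) ⁻¹' {k} =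
      {a | (R k a ∧ ∀ j, j < k → ¬ R j a) ∨ (k = 0 ∧ ∀ j, ¬ R j a)} := by
    ext a
    constructor
    · intro ha
      have ha' : sInf {n | R n a} = k := ha
      by_cases hne : ∃ n, R n a
      · left
        have h1 : sInf {n | R n a} ∈ {n | R n a} := Nat.sInf_mem hne
        rw [ha'] at h1
        refine ⟨h1, fun j hj hR => ?_⟩
        have h2 : sInf {n | R n a} ≤ j := Nat.sInf_le hR
        omega
      · right
        push Not at hne
        have h1 : {n | R n a} = ∅ := by
          ext n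
          simp [hne n]
        rw [h1, Nat.sInf_empty] at ha'
        exact ⟨ha'.symm, hne⟩
    · rintro (⟨h1, h2⟩ | ⟨rfl, h2⟩)
      · change sInf {n | R n a} = k
        apply le_antisymm (Nat.sInf_le h1)
        by_contra hlt
        push Not at hlt
        exact h2 _ hlt (Nat.sInf_mem (⟨k, h1⟩ : {n | R n a}.Nonempty))
      · change sInf {n | R n a} = 0
        have h1 : {n | R n a} = ∅ := by
          ext n
          simp [h2 n]
        rw [h1, Nat.sInf_empty]
  rw [heq]
  refine measurableSet_setOfPred.2 ?_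
  exact ((h k).and (Measurable.forall fun j => measurable_const.imp (h j).not)).or
    (measurable_const.and (Measurable.forall fun j => (h j).not))

/-- Iterated neighbours. -/
def nd {Y : Type*} (s : ℕ → Y → Y) : List ℕ → Y → Y
  | [], y => y
  | n :: l, y => nd s l (s n y)

lemma measurable_nd {Y : Type*} [MeasurableSpace Y] {s : ℕ → Y → Y} (hs : ∀ n, Measurable (s n))
    (l : List ℕ) : Measurable (nd s l) := by
  induction l with
  | nil => exact measurable_id
  | cons n l ih => exact ih.comp (hs n)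

lemma nd_surj {Y : Type*} {S : SimpleGraph Y} {s : ℕ → Y → Y}
    (hs : ∀ y z, S.Adj y z → ∃ n, s n y = z) {y z : Y} (w : S.Walk y z) : ∃ l, nd s l y = z := by
  induction w with
  | nil => exact ⟨[], rfl⟩
  | cons hadj _ ih =>
    obtain ⟨l, hl⟩ := ih
    obtain ⟨n, hn⟩ := hs _ _ hadj
    exact ⟨n :: l, by rw [nd, hn, hl]⟩

lemma walk_succ {Y : Type*} {S : SimpleGraph Y} {z t : Y} {n : ℕ} (w : S.Walk z t)
    (hw : w.length ≤ n + 1) :
    (∃ w' : S.Walk z t, w'.length ≤ n) ∨ ∃ z', S.Adj z z' ∧ ∃ w' : S.Walk z' t, w'.length ≤ n := by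
  cases w with
  | nil => exact Or.inl ⟨Walk.nil, by simp⟩
  | @cons _ z' _ hadj w' =>
    refine Or.inr ⟨z', hadj, w', ?_⟩
    simp only [Walk.length_cons] at hw
    omega

namespace Data

variable {X Y : Type*} [MeasurableSpace X] [StandardBorelSpace X] [MeasurableSpace Y]
  [StandardBorelSpace Y] {P : Data X Y}

/-- The Borel conditions. -/
structure Bor (P : Data X Y) (s : ℕ → Y → Y) (g : ℕ → X → Y) (c : ℕ → Y → X) : Prop where
  hs : ∀ n, Measurable (s n)
  hS' : ∀ y z, P.S.Adj y z → ∃ n, s n y = z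
  hg : ∀ n, Measurable (g n)
  hIn : ∀ x y, P.In x y ↔ ∃ n, g n x = y
  hc : ∀ n, Measurable (c n)
  hIn' : ∀ x y, P.In x y → ∃ n, c n y = x
  hr : Measurable P.r
  hG : Measurable fun p : X × X => P.G.Adj p.1 p.2
  hS : Measurable fun p : Y × Y => P.S.Adj p.1 p.2
  he : Measurable fun p : Y × X => P.e p.1 p.2
  hφ : Measurable P.φ

variable {s : ℕ → Y → Y} {g : ℕ → X → Y} {c : ℕ → Y → X}

omit [StandardBorelSpace X] in
lemma measurable_In (hB : P.Bor s g c) : Measurable fun p : X × Y => P.In p.1 p.2 := by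
  have heq : (fun p : X × Y => P.In p.1 p.2) = fun p : X × Y => ∃ n, g n p.1 = p.2 := by
    funext p
    exact propext (hB.hIn _ _)
  rw [heq]
  exact Measurable.exists fun n => Measurable.eq ((hB.hg n).comp measurable_fst) measurable_snd

/-- Enumeration of the component of a point. -/
def pt (P : Data X Y) (s : ℕ → Y → Y) (c : ℕ → Y → X) (n : ℕ) (x : X) : X :=
  c (Denumerable.ofNat (List ℕ × ℕ) n).2 (nd s (Denumerable.ofNat (List ℕ × ℕ) n).1 (P.r x))

omit [StandardBorelSpace X] [StandardBorelSpace Y] in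
lemma measurable_pt (hB : P.Bor s g c) (n : ℕ) : Measurable (P.pt s c n) :=
  (hB.hc _).comp ((measurable_nd hB.hs _).comp hB.hr)

omit [StandardBorelSpace X] [StandardBorelSpace Y] in
lemma pt_surj (h : P.Ok) (hB : P.Bor s g c) {x x' : X} (hr : P.G.Reachable x x') :
    ∃ n, P.pt s c n x = x' := by
  obtain ⟨w⟩ := root_reach h hr
  obtain ⟨l, hl⟩ := nd_surj hB.hS' w
  obtain ⟨i, hi⟩ := hB.hIn' _ _ (h.hr x')
  refine ⟨Encodable.encode (l, i), ?_⟩
  unfold pt
  rw [Denumerable.ofNat_encode]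
  change c i (nd s l (P.r x)) = x'
  rw [hl, hi]

/-- The node `z` is at distance at most `n` from the root of `x`. -/
def W (P : Data X Y) (n : ℕ) (x : X) (z : Y) : Prop := ∃ w : P.S.Walk z (P.r x), w.length ≤ n

omit [StandardBorelSpace X] in
lemma measurable_W (hB : P.Bor s g c) (n : ℕ) :
    Measurable fun p : X × Y => P.W n p.1 p.2 := by
  induction n with
  | zero =>
    have heq : (fun p : X × Y => P.W 0 p.1 p.2) = fun p : X × Y => p.2 = P.r p.1 := by
      funext p
      apply propext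
      constructor
      · rintro ⟨w, hw⟩
        exact Walk.eq_of_length_eq_zero (Nat.le_zero.1 hw)
      · intro hy
        unfold W
        rw [hy]
        exact ⟨Walk.nil, le_rfl⟩
    rw [heq]
    exact Measurable.eq measurable_snd (hB.hr.comp measurable_fst)
  | succ n ih =>
    have heq : (fun p : X × Y => P.W (n + 1) p.1 p.2) =
        fun p : X × Y => P.W n p.1 p.2 ∨ ∃ i, P.W n p.1 (s i p.2) ∧ P.S.Adj p.2 (s i p.2) := by
      funext p
      apply propext
      constructor
      · rintro ⟨w, hw⟩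
        rcases walk_succ w hw with h1 | ⟨z', hadj, w', hw'⟩
        · exact Or.inl h1
        · right
          obtain ⟨i, hi⟩ := hB.hS' _ _ hadj
          refine ⟨i, ?_, ?_⟩
          · rw [hi]
            exact ⟨w', hw'⟩
          · rw [hi]
            exact hadj
      · rintro (⟨w, hw⟩ | ⟨i, ⟨w, hw⟩, hadj⟩)
        · exact ⟨w, by omega⟩
        · exact ⟨Walk.cons hadj w, by rw [Walk.length_cons]; omega⟩
    rw [heq]
    refine ih.or (Measurable.exists fun i => ?_)
    have h1 : Measurable fun p : X × Y => s i p.2 := (hB.hs i).comp measurable_snd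
    exact (ih.comp (measurable_fst.prodMk h1)).and (hB.hS.comp (measurable_snd.prodMk h1))

omit [StandardBorelSpace X] in
lemma measurable_Lv (hB : P.Bor s g c) (m : ℕ) :
    Measurable fun p : X × Y => P.Lv m p.1 p.2 :=
  (measurable_In hB).and (measurable_W hB m)

omit [StandardBorelSpace X] in
/-- A common node at level `m`, given by an enumeration. -/
lemma measurable_node (hB : P.Bor s g c) (m i : ℕ) :
    Measurable fun p : X × X => P.Lv m p.1 (g i p.1) ∧ P.Lv m p.2 (g i p.1) := by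
  have h1 : Measurable fun p : X × X => g i p.1 := (hB.hg i).comp measurable_fst
  exact ((measurable_Lv hB m).comp (measurable_fst.prodMk h1)).and
    ((measurable_Lv hB m).comp (measurable_snd.prodMk h1))

omit [StandardBorelSpace X] in
lemma measurable_Sh (hB : P.Bor s g c) (m : ℕ) :
    Measurable fun p : X × X => P.Sh m p.1 p.2 := by
  have heq : (fun p : X × X => P.Sh m p.1 p.2) = fun p : X × X => ∃ i j, g i p.1 ≠ g j p.1 ∧
      ((P.Lv m p.1 (g i p.1) ∧ P.Lv m p.2 (g i p.1)) ∧
        (P.Lv m p.1 (g j p.1) ∧ P.Lv m p.2 (g j p.1))) := by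
    funext p
    apply propext
    constructor
    · rintro ⟨z, z', hzz, h1, h2⟩
      obtain ⟨i, rfl⟩ := (hB.hIn _ _).1 h1.1.1
      obtain ⟨j, rfl⟩ := (hB.hIn _ _).1 h2.1.1
      exact ⟨i, j, hzz, h1, h2⟩
    · rintro ⟨i, j, hij, h1, h2⟩
      exact ⟨_, _, hij, h1, h2⟩
  rw [heq]
  refine Measurable.exists fun i => Measurable.exists fun j => Measurable.and ?_
    ((measurable_node hB m i).and (measurable_node hB m j))
  exact (Measurable.eq ((hB.hg i).comp measurable_fst) ((hB.hg j).comp measurable_fst)).not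

omit [StandardBorelSpace X] in
lemma measurable_Glt (hB : P.Bor s g c) (m : ℕ) :
    Measurable fun p : X × X => (P.Glt m).Adj p.1 p.2 := by
  have heq : (fun p : X × X => (P.Glt m).Adj p.1 p.2) = fun p : X × X => P.G.Adj p.1 p.2 ∧
      ∃ k, k < m ∧ ∃ i, P.Lv k p.1 (g i p.1) ∧ P.Lv k p.2 (g i p.1) := by
    funext p
    apply propext
    constructor
    · rintro ⟨h1, k, hk, y, h2⟩
      obtain ⟨i, rfl⟩ := (hB.hIn _ _).1 h2.1.1
      exact ⟨h1, k, hk, i, h2⟩
    · rintro ⟨h1, k, hk, i, h2⟩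
      exact ⟨h1, k, hk, _, h2⟩
  rw [heq]
  exact hB.hG.and (Measurable.exists fun k => measurable_const.and
    (Measurable.exists fun i => measurable_node hB k i))

omit [StandardBorelSpace X] [StandardBorelSpace Y] in
lemma measurable_pk (hB : P.Bor s g c) {α : Type*} [MeasurableSpace α] {y : α → Y} {u v : α → X}
    (hy : Measurable y) (hu : Measurable u) (hv : Measurable v) :
    Measurable fun a => P.pk (y a) (u a) (v a) := by
  have h1 : Measurable fun q : ℕ × ℕ => Nat.pair (max q.1 q.2) (min q.1 q.2) :=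
    Measurable.of_discrete
  exact h1.comp ((hB.he.comp (hy.prodMk hu)).prodMk (hB.he.comp (hy.prodMk hv)))

omit [StandardBorelSpace X] in
lemma measurable_sk (hB : P.Bor s g c) (m : ℕ) :
    Measurable fun p : X × X => P.sk m p.1 p.2 := by
  refine measurable_sInf_nat (R := fun n (p : X × X) => ∃ z z', P.S.Adj z z' ∧ P.φ z < P.φ z' ∧
    (P.Lv m p.1 z ∧ P.Lv m p.2 z) ∧ (P.Lv m p.1 z' ∧ P.Lv m p.2 z') ∧ P.pk z p.1 p.2 = n) ?_
  intro n
  have heq : (fun p : X × X => ∃ z z', P.S.Adj z z' ∧ P.φ z < P.φ z' ∧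
      (P.Lv m p.1 z ∧ P.Lv m p.2 z) ∧ (P.Lv m p.1 z' ∧ P.Lv m p.2 z') ∧ P.pk z p.1 p.2 = n) =
      fun p : X × X => ∃ i j, P.S.Adj (g i p.1) (g j p.1) ∧ (P.φ (g i p.1) < P.φ (g j p.1) ∧
      ((P.Lv m p.1 (g i p.1) ∧ P.Lv m p.2 (g i p.1)) ∧
      ((P.Lv m p.1 (g j p.1) ∧ P.Lv m p.2 (g j p.1)) ∧ P.pk (g i p.1) p.1 p.2 = n))) := by
    funext p
    apply propext
    constructor
    · rintro ⟨z, z', h1, h2, h3, h4, h5⟩
      obtain ⟨i, rfl⟩ := (hB.hIn _ _).1 h3.1.1
      obtain ⟨j, rfl⟩ := (hB.hIn _ _).1 h4.1.1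
      exact ⟨i, j, h1, h2, h3, h4, h5⟩
    · rintro ⟨i, j, h1, h2, h3, h4, h5⟩
      exact ⟨_, _, h1, h2, h3, h4, h5⟩
  change Measurable (fun p : X × X => ∃ z z', P.S.Adj z z' ∧ P.φ z < P.φ z' ∧
      (P.Lv m p.1 z ∧ P.Lv m p.2 z) ∧ (P.Lv m p.1 z' ∧ P.Lv m p.2 z') ∧ P.pk z p.1 p.2 = n)
  rw [heq]
  refine Measurable.exists fun i => Measurable.exists fun j => ?_
  have h1 : Measurable fun p : X × X => g i p.1 := (hB.hg i).comp measurable_fst
  have h2 : Measurable fun p : X × X => g j p.1 := (hB.hg j).comp measurable_fst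
  refine (hB.hS.comp (h1.prodMk h2)).and (Measurable.and ?_ ((measurable_node hB m i).and
    ((measurable_node hB m j).and ?_)))
  · exact measurableSet_setOfPred.1 (measurableSet_lt (hB.hφ.comp h1) (hB.hφ.comp h2))
  · exact Measurable.eq (measurable_pk hB h1 measurable_fst measurable_snd) measurable_const

omit [StandardBorelSpace X] in
/-- The comparison of keys. -/
lemma measurable_key (hB : P.Bor s g c) (m : ℕ) :
    Measurable fun p : Y × (X × X) × (X × X) =>
      P.key m p.1 p.2.1.1 p.2.1.2 < P.key m p.1 p.2.2.1 p.2.2.2 := by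
  have heq : (fun p : Y × (X × X) × (X × X) =>
      P.key m p.1 p.2.1.1 p.2.1.2 < P.key m p.1 p.2.2.1 p.2.2.2) =
      fun p : Y × (X × X) × (X × X) =>
      (P.Sh m p.2.1.1 p.2.1.2 ∧ ¬ P.Sh m p.2.2.1 p.2.2.2) ∨
      ((P.Sh m p.2.1.1 p.2.1.2 ↔ P.Sh m p.2.2.1 p.2.2.2) ∧
        (P.sk m p.2.1.1 p.2.1.2 < P.sk m p.2.2.1 p.2.2.2 ∨
          (P.sk m p.2.1.1 p.2.1.2 = P.sk m p.2.2.1 p.2.2.2 ∧
            P.pk p.1 p.2.1.1 p.2.1.2 < P.pk p.1 p.2.2.1 p.2.2.2))) := by
    funext p
    exact propext (key_lt_iff m _ _ _ _ _)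
  rw [heq]
  have h1 : Measurable fun p : Y × (X × X) × (X × X) => P.sk m p.2.1.1 p.2.1.2 :=
    (measurable_sk hB m).comp measurable_snd.fst
  have h2 : Measurable fun p : Y × (X × X) × (X × X) => P.sk m p.2.2.1 p.2.2.2 :=
    (measurable_sk hB m).comp measurable_snd.snd
  have h3 : Measurable fun p : Y × (X × X) × (X × X) => P.pk p.1 p.2.1.1 p.2.1.2 :=
    measurable_pk hB measurable_fst measurable_snd.fst.fst measurable_snd.fst.snd
  have h4 : Measurable fun p : Y × (X × X) × (X × X) => P.pk p.1 p.2.2.1 p.2.2.2 :=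
    measurable_pk hB measurable_fst measurable_snd.snd.fst measurable_snd.snd.snd
  have h5 : Measurable fun p : Y × (X × X) × (X × X) => P.Sh m p.2.1.1 p.2.1.2 :=
    (measurable_Sh hB m).comp measurable_snd.fst
  have h6 : Measurable fun p : Y × (X × X) × (X × X) => P.Sh m p.2.2.1 p.2.2.2 :=
    (measurable_Sh hB m).comp measurable_snd.snd
  refine (h5.and h6.not).or (Measurable.and (h5.iff h6) ?_)
  exact (measurableSet_setOfPred.1 (measurableSet_lt h1 h2)).or
    ((Measurable.eq h1 h2).and (measurableSet_setOfPred.1 (measurableSet_lt h3 h4)))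

lemma measurable_rem (h : P.Ok) (hB : P.Bor s g c) (m : ℕ) :
    Measurable fun p : (Y × X × X) × X =>
      (P.Glt m ⊔ P.Below m p.1.1 p.1.2.1 p.1.2.2).Reachable p.1.2.1 p.2 := by
  refine measurable_reach (Q := Y × X × X) (H := fun q => P.Glt m ⊔ P.Below m q.1 q.2.1 q.2.2)
    (b := fun q => q.2.1) (F := fun i q => P.pt s c i q.2.1) measurable_snd.fst ?_
    (fun i => (measurable_pt hB i).comp measurable_snd.fst) ?_
  · have heq : (fun p : (Y × X × X) × X × X =>
        (P.Glt m ⊔ P.Below m p.1.1 p.1.2.1 p.1.2.2).Adj p.2.1 p.2.2) =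
        fun p : (Y × X × X) × X × X => (P.Glt m).Adj p.2.1 p.2.2 ∨ (P.G.Adj p.2.1 p.2.2 ∧
          ((P.Lv m p.2.1 p.1.1 ∧ P.Lv m p.2.2 p.1.1) ∧
            P.key m p.1.1 p.2.1 p.2.2 < P.key m p.1.1 p.1.2.1 p.1.2.2)) := by
      funext p
      apply propext
      constructor
      · rintro (h1 | ⟨h1, h2, h3, _⟩)
        · exact Or.inl h1
        · exact Or.inr ⟨h1, h2, h3⟩
      · rintro (h1 | ⟨h1, h2, h3⟩)
        · exact Or.inl h1
        · exact Or.inr ⟨h1, h2, h3, (key_symm m _ _ _).trans_lt h3⟩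
    rw [heq]
    refine ((measurable_Glt hB m).comp measurable_snd).or
      ((hB.hG.comp measurable_snd).and (Measurable.and (Measurable.and ?_ ?_) ?_))
    · exact (measurable_Lv hB m).comp (measurable_snd.fst.prodMk measurable_fst.fst)
    · exact (measurable_Lv hB m).comp (measurable_snd.snd.prodMk measurable_fst.fst)
    · exact (measurable_key hB m).comp
        (measurable_fst.fst.prodMk (measurable_snd.prodMk measurable_fst.snd))
  · rintro ⟨y, u, v⟩ z hz
    apply pt_surj h hB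
    have hle : P.Glt m ⊔ P.Below m y u v ≤ P.G := sup_le (fun _ _ hab => hab.1) fun _ _ hab => hab.1
    exact Reachable.mono hle hz

/-- The graph `T` is Borel. -/
lemma measurable_T (h : P.Ok) (hB : P.Bor s g c) :
    Measurable fun p : X × X => P.T.Adj p.1 p.2 := by
  have heq : (fun p : X × X => P.T.Adj p.1 p.2) = fun p : X × X => ∃ m, P.G.Adj p.1 p.2 ∧
      ((∃ i, P.Lv m p.1 (g i p.1) ∧ P.Lv m p.2 (g i p.1)) ∧
      ∀ i, (P.Lv m p.1 (g i p.1) ∧ P.Lv m p.2 (g i p.1)) →
        ¬ (P.Glt m ⊔ P.Below m (g i p.1) p.1 p.2).Reachable p.1 p.2) := by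
    funext p
    apply propext
    constructor
    · rintro ⟨m, h1, ⟨y, h2⟩, h3⟩
      obtain ⟨i, rfl⟩ := (hB.hIn _ _).1 h2.1.1
      exact ⟨m, h1, ⟨i, h2⟩, fun j hj => h3 _ hj.1 hj.2⟩
    · rintro ⟨m, h1, ⟨i, h2⟩, h3⟩
      refine ⟨m, h1, ⟨_, h2⟩, fun y hy hy' => ?_⟩
      obtain ⟨j, rfl⟩ := (hB.hIn _ _).1 hy.1
      exact h3 j ⟨hy, hy'⟩
  rw [heq]
  refine Measurable.exists fun m => hB.hG.and (Measurable.and
    (Measurable.exists fun i => measurable_node hB m i)
    (Measurable.forall fun i => (measurable_node hB m i).imp ?_))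
  exact ((measurable_rem h hB m).comp
    ((((hB.hg i).comp measurable_fst).prodMk measurable_id).prodMk measurable_snd)).not

end Data

/-- The main theorem. -/
theorem main {X Y : Type*} [MeasurableSpace X] [StandardBorelSpace X] [MeasurableSpace Y]
    [StandardBorelSpace Y] (G : SimpleGraph X) (hG : MeasurableSet {q : X × X | G.Adj q.1 q.2})
    (S : SimpleGraph Y) (hS : MeasurableSet {q : Y × Y | S.Adj q.1 q.2}) (hac : S.IsAcyclic)
    (In : X → Y → Prop) (s : ℕ → Y → Y) (hs : ∀ n, Measurable (s n))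
    (hs' : ∀ y z, S.Adj y z → ∃ n, s n y = z) (g : ℕ → X → Y) (hg : ∀ n, Measurable (g n))
    (hg' : ∀ x y, In x y ↔ ∃ n, g n x = y) (c : ℕ → Y → X) (hc : ∀ n, Measurable (c n))
    (hc' : ∀ x y, In x y → ∃ n, c n y = x)
    (hedge : ∀ u v, G.Adj u v → ∃ y, In u y ∧ In v y)
    (hconn : ∀ x, (S.induce {y | In x y}).Preconnected)
    (hcl : ∀ y z, S.Adj y z → ∀ u v, In u y → In u z → In v y → In v z → u ≠ v → G.Adj u v) :
    ∃ T : SimpleGraph X, MeasurableSet {q : X × X | T.Adj q.1 q.2} ∧ T.IsAcyclic ∧ T ≤ G ∧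
      ∀ x y, T.Reachable x y ↔ G.Reachable x y := by
  let P : Data X Y := ⟨G, S, In, g 0, fun y x => sInf {n | c n y = x}, embeddingReal Y⟩
  have hOk : P.Ok :=
    { hS := hac
      hconn := hconn
      hr := fun x => (hg' x _).2 ⟨0, rfl⟩
      hedge := hedge
      hcl := hcl
      he := by
        intro y u v hu hv huv
        have h1 : c (P.e y u) y = u := Nat.sInf_mem (s := {n | c n y = u}) (hc' u y hu)
        have h2 : c (P.e y v) y = v := Nat.sInf_mem (s := {n | c n y = v}) (hc' v y hv)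
        rw [← h1, ← h2, huv]
      hφ := (measurableEmbedding_embeddingReal Y).injective }
  have hBor : P.Bor s g c :=
    { hs := hs
      hS' := hs'
      hg := hg
      hIn := hg'
      hc := hc
      hIn' := hc'
      hr := hg 0
      hG := measurableSet_setOfPred.1 hG
      hS := measurableSet_setOfPred.1 hS
      he := measurable_sInf_nat fun n =>
        Measurable.eq ((hc n).comp measurable_fst) measurable_snd
      hφ := (measurableEmbedding_embeddingReal Y).measurable }
  refine ⟨P.T, measurableSet_setOfPred.2 (Data.measurable_T hOk hBor), Data.T_acyclic hOk,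
    Data.T_le, fun x y => ⟨fun h => h.mono Data.T_le, fun h => ?_⟩⟩
  exact reach_of_adj (H := G) (fun a b hab => Data.T_reach hOk hab) h

end Pool.Agent.Helper3.CA
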