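import Pool.Agent.Helper3.CA.Borel

/-!
# Contraction of clusters of nodes

`π : Y → Y` is constant on the clusters, which are connected sets of nodes. Only the adhesion sets
between different clusters have to be cliques.
-/

namespace Pool.Agent.Helper3.CA

open SimpleGraph MeasureTheory Pool.Agent.Helper3.TD

variable {X Y : Type*}

/-- The contracted graph. -/
def ctr (S : SimpleGraph Y) (π : Y → Y) : SimpleGraph Y where
  Adj a b := a ≠ b ∧ ∃ y z, S.Adj y z ∧ π y = a ∧ π z = b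
  symm := ⟨fun _ _ ⟨h, y, z, h1, h2, h3⟩ => ⟨h.symm, z, y, h1.symm, h3, h2⟩⟩
  loopless := ⟨fun _ h => h.1 rfl⟩

/-- Two nodes of a cluster are joined without an edge that leaves the cluster. -/
lemma fibre_reach {S : SimpleGraph Y} {π : Y → Y} {a : Y}
    (h : (S.induce {z | π z = a}).Preconnected) {p q y z : Y} (hpq : π p ≠ π q) (hy : π y = a)
    (hz : π z = a) : (S.deleteEdges {s(p, q)}).Reachable y z := by
  refine reach_delete h (show y ∈ {z | π z = a} from hy) (show z ∈ {z | π z = a} from hz) ?_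
  rintro ⟨h1, h2⟩
  exact hpq ((show π p = a from h1).trans (show π q = a from h2).symm)

lemma ctr_acyclic {S : SimpleGraph Y} (hS : S.IsAcyclic) {π : Y → Y}
    (hπ : ∀ y, π (π y) = π y) (hc : ∀ a, (S.induce {z | π z = a}).Preconnected) :
    (ctr S π).IsAcyclic := by
  rw [isAcyclic_iff_forall_adj_isBridge]
  rintro a b ⟨hab, y, z, hyz, rfl, rfl⟩
  rw [isBridge_iff]
  intro hr
  have hbr := isAcyclic_iff_forall_adj_isBridge.1 hS hyz
  rw [isBridge_iff] at hbr
  apply hbr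
  have h1 : (S.deleteEdges {s(y, z)}).Reachable (π y) (π z) := by
    refine reach_of_adj ?_ hr
    intro t t' htt
    rw [deleteEdges_adj] at htt
    obtain ⟨⟨_, p, q, hpq, rfl, rfl⟩, hne⟩ := htt
    have h2 : (S.deleteEdges {s(y, z)}).Adj p q := by
      rw [deleteEdges_adj]
      refine ⟨hpq, fun h3 => hne ?_⟩
      rw [Set.mem_singleton_iff, Sym2.eq_iff] at h3 ⊢
      rcases h3 with ⟨rfl, rfl⟩ | ⟨rfl, rfl⟩
      · exact Or.inl ⟨rfl, rfl⟩
      · exact Or.inr ⟨rfl, rfl⟩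
    exact ((fibre_reach (hc (π p)) hab (hπ p) rfl).trans h2.reachable).trans
      (fibre_reach (hc (π q)) hab rfl (hπ q))
  exact ((fibre_reach (hc (π y)) hab rfl (hπ y)).trans h1).trans
    (fibre_reach (hc (π z)) hab (hπ z) rfl)

lemma ctr_conn {S : SimpleGraph Y} {π : Y → Y} {In : X → Y → Prop} {x : X}
    (hconn : (S.induce {y | In x y}).Preconnected) :
    ((ctr S π).induce {a | ∃ y, π y = a ∧ In x y}).Preconnected := by
  rintro ⟨_, y, rfl, hy⟩ ⟨_, z, rfl, hz⟩
  have h1 := reach_closed (H := S.induce {y | In x y})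
    (Z := {t | ((ctr S π).induce {a | ∃ y, π y = a ∧ In x y}).Reachable ⟨π y, y, rfl, hy⟩
      ⟨π t.1, t.1, rfl, t.2⟩}) ?_ (hconn ⟨y, hy⟩ ⟨z, hz⟩) (Reachable.refl _)
  · exact h1
  · rintro ⟨p, hp⟩ ⟨q, hq⟩ hpq hr
    have hpq' : S.Adj p q := hpq
    by_cases heq : π p = π q
    · have h2 : (⟨π p, p, rfl, hp⟩ : {a | ∃ y, π y = a ∧ In x y}) = ⟨π q, q, rfl, hq⟩ :=
        Subtype.ext heq
      have h3 : ((ctr S π).induce {a | ∃ y, π y = a ∧ In x y}).Reachable ⟨π y, y, rfl, hy⟩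
          ⟨π p, p, rfl, hp⟩ := hr
      rw [h2] at h3
      exact h3
    · refine Reachable.trans hr (Adj.reachable ?_)
      exact ⟨heq, p, q, hpq', rfl, rfl⟩

lemma ctr_clique {S : SimpleGraph Y} (hS : S.IsAcyclic) {π : Y → Y} {In : X → Y → Prop}
    (hc : ∀ a, (S.induce {z | π z = a}).Preconnected) {x : X}
    (hconn : (S.induce {y | In x y}).Preconnected) {y z : Y} (hyz : S.Adj y z) (hne : π y ≠ π z)
    (h1 : ∃ y', π y' = π y ∧ In x y') (h2 : ∃ z', π z' = π z ∧ In x z') : In x y ∧ In x z := by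
  obtain ⟨y', hy', h1⟩ := h1
  obtain ⟨z', hz', h2⟩ := h2
  by_contra hcon
  have hbr := isAcyclic_iff_forall_adj_isBridge.1 hS hyz
  rw [isBridge_iff] at hbr
  apply hbr
  have h3 : (S.deleteEdges {s(y, z)}).Reachable y' z' := reach_delete hconn h1 h2 hcon
  exact ((fibre_reach (hc (π y)) hne rfl hy').trans h3).trans
    (fibre_reach (hc (π z)) hne hz' rfl)

/-- The main theorem, with clusters. -/
theorem main' {X Y : Type*} [MeasurableSpace X] [StandardBorelSpace X] [MeasurableSpace Y]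
    [StandardBorelSpace Y] (G : SimpleGraph X) (hG : MeasurableSet {q : X × X | G.Adj q.1 q.2})
    (S : SimpleGraph Y) (hS : MeasurableSet {q : Y × Y | S.Adj q.1 q.2}) (hac : S.IsAcyclic)
    (In : X → Y → Prop) (s : ℕ → Y → Y) (hs : ∀ n, Measurable (s n))
    (hs' : ∀ y z, S.Adj y z → ∃ n, s n y = z) (g : ℕ → X → Y) (hg : ∀ n, Measurable (g n))
    (hg' : ∀ x y, In x y ↔ ∃ n, g n x = y) (c : ℕ → Y → X) (hc : ∀ n, Measurable (c n))
    (hc' : ∀ x y, In x y → ∃ n, c n y = x)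
    (hedge : ∀ u v, G.Adj u v → ∃ y, In u y ∧ In v y)
    (hconn : ∀ x, (S.induce {y | In x y}).Preconnected)
    (π : Y → Y) (hπ : Measurable π) (hππ : ∀ y, π (π y) = π y)
    (hfib : ∀ a, (S.induce {z | π z = a}).Preconnected)
    (hcl : ∀ y z, S.Adj y z → π y ≠ π z → ∀ u v, In u y → In u z → In v y → In v z → u ≠ v →
      G.Adj u v) :
    ∃ T : SimpleGraph X, MeasurableSet {q : X × X | T.Adj q.1 q.2} ∧ T.IsAcyclic ∧ T ≤ G ∧
      ∀ x y, T.Reachable x y ↔ G.Reachable x y := by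
  have hSm : Measurable fun q : Y × Y => S.Adj q.1 q.2 := measurableSet_setOfPred.1 hS
  -- the nodes of a cluster are enumerated from its base
  have hnd : ∀ y a, π y = a → ∃ l, nd s l a = y := by
    intro y a hy
    have h1 : π a = a := by rw [← hy, hππ]
    obtain ⟨w⟩ := hfib a ⟨a, h1⟩ ⟨y, hy⟩
    exact nd_surj hs' (w.map (Embedding.induce _).toHom)
  let s' : ℕ → Y → Y := fun k a =>
    π (s (Denumerable.ofNat (List ℕ × ℕ) k).2 (nd s (Denumerable.ofNat (List ℕ × ℕ) k).1 a))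
  let c' : ℕ → Y → X := fun k a =>
    c (Denumerable.ofNat (List ℕ × ℕ) k).2 (nd s (Denumerable.ofNat (List ℕ × ℕ) k).1 a)
  have hctr : Measurable fun q : Y × Y => (ctr S π).Adj q.1 q.2 := by
    have heq : (fun q : Y × Y => (ctr S π).Adj q.1 q.2) = fun q : Y × Y => q.1 ≠ q.2 ∧
        ∃ (l : List ℕ) (n : ℕ), S.Adj (nd s l q.1) (s n (nd s l q.1)) ∧ (π (nd s l q.1) = q.1 ∧
          π (s n (nd s l q.1)) = q.2) := by
      funext q
      apply propext
      constructor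
      · rintro ⟨hne, y, z, hyz, h1, h2⟩
        obtain ⟨l, hl⟩ := hnd y q.1 h1
        obtain ⟨n, hn⟩ := hs' y z hyz
        subst hl
        subst hn
        exact ⟨hne, l, n, hyz, h1, h2⟩
      · rintro ⟨hne, l, n, h1, h2, h3⟩
        exact ⟨hne, _, _, h1, h2, h3⟩
    rw [heq]
    refine (Measurable.eq measurable_fst measurable_snd).not.and (Measurable.exists fun l =>
      Measurable.exists fun n => ?_)
    have h1 : Measurable fun q : Y × Y => nd s l q.1 := (measurable_nd hs l).comp measurable_fst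
    have h2 : Measurable fun q : Y × Y => s n (nd s l q.1) := (hs n).comp h1
    exact (hSm.comp (h1.prodMk h2)).and ((Measurable.eq (hπ.comp h1) measurable_fst).and
      (Measurable.eq (hπ.comp h2) measurable_snd))
  refine main G hG (ctr S π) (measurableSet_setOfPred.2 hctr) (ctr_acyclic hac hππ hfib)
    (fun x a => ∃ y, π y = a ∧ In x y) s' (fun k => hπ.comp ((hs _).comp (measurable_nd hs _)))
    ?_ (fun n x => π (g n x)) (fun n => hπ.comp (hg n)) ?_ c'
    (fun k => (hc _).comp (measurable_nd hs _)) ?_ ?_ (fun x => ctr_conn (hconn x)) ?_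
  · rintro a b ⟨_, y, z, hyz, h1, h2⟩
    obtain ⟨l, hl⟩ := hnd y a h1
    obtain ⟨n, hn⟩ := hs' y z hyz
    refine ⟨Encodable.encode (l, n), ?_⟩
    simp only [s']
    rw [Denumerable.ofNat_encode]
    change π (s n (nd s l a)) = b
    rw [hl, hn, h2]
  · intro x a
    constructor
    · rintro ⟨y, h1, h2⟩
      obtain ⟨n, rfl⟩ := (hg' x y).1 h2
      exact ⟨n, h1⟩
    · rintro ⟨n, h1⟩
      exact ⟨g n x, h1, (hg' _ _).2 ⟨n, rfl⟩⟩
  · rintro x a ⟨y, h1, h2⟩
    obtain ⟨l, hl⟩ := hnd y a h1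
    obtain ⟨i, hi⟩ := hc' x y h2
    refine ⟨Encodable.encode (l, i), ?_⟩
    simp only [c']
    rw [Denumerable.ofNat_encode]
    change c i (nd s l a) = x
    rw [hl, hi]
  · intro u v huv
    obtain ⟨y, h1, h2⟩ := hedge u v huv
    exact ⟨π y, ⟨y, rfl, h1⟩, ⟨y, rfl, h2⟩⟩
  · rintro a b ⟨hne, y, z, hyz, rfl, rfl⟩ u v hu hu' hv hv' huv
    obtain ⟨h1, h2⟩ := ctr_clique hac hfib (hconn u) hyz hne hu hu'
    obtain ⟨h3, h4⟩ := ctr_clique hac hfib (hconn v) hyz hne hv hv'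
    exact hcl y z hyz hne u v h1 h2 h3 h4 huv

end Pool.Agent.Helper3.CA
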