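import Pool.Agent.Helper3.TD.Alg

/-!
# Spanning forests in graphs with a tree decomposition whose adhesion sets are cliques

`S` is a forest of nodes, every point `x` of `X` lies in the parts `y` with `In x y`, which form a
subtree of `S`, and `r x` is one of them (the root of `x`). The numbers `e y x` are different for
different points `x` of the part `y`, and the numbers `φ y` are different for different nodes.
-/

namespace Pool.Agent.Helper3.CA

open SimpleGraph Pool.Agent.Helper3.TD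

variable {X Y : Type*}

/-- The data. -/
structure Data (X Y : Type*) where
  G : SimpleGraph X
  S : SimpleGraph Y
  In : X → Y → Prop
  r : X → Y
  e : Y → X → ℕ
  φ : Y → ℝ

namespace Data

/-- `x` lies in the part `y`, at distance at most `m` from its root. -/
def Lv (P : Data X Y) (m : ℕ) (x : X) (y : Y) : Prop :=
  P.In x y ∧ ∃ w : P.S.Walk y (P.r x), w.length ≤ m

/-- The edges of level less than `m`. -/
def Glt (P : Data X Y) (m : ℕ) : SimpleGraph X where
  Adj u v := P.G.Adj u v ∧ ∃ k, k < m ∧ ∃ y, P.Lv k u y ∧ P.Lv k v y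
  symm := ⟨fun _ _ ⟨h1, k, h2, y, h3, h4⟩ => ⟨h1.symm, k, h2, y, h4, h3⟩⟩
  loopless := ⟨fun _ h => P.G.loopless.irrefl _ h.1⟩

/-- `u` and `v` have level at most `m` at two nodes. -/
def Sh (P : Data X Y) (m : ℕ) (u v : X) : Prop :=
  ∃ z z', z ≠ z' ∧ (P.Lv m u z ∧ P.Lv m v z) ∧ (P.Lv m u z' ∧ P.Lv m v z')

/-- The number of a pair in the part `y`. -/
def pk (P : Data X Y) (y : Y) (u v : X) : ℕ :=
  Nat.pair (max (P.e y u) (P.e y v)) (min (P.e y u) (P.e y v))

/-- The weight of a pair common to neighbouring parts. -/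
noncomputable def sk (P : Data X Y) (m : ℕ) (u v : X) : ℕ :=
  sInf {n | ∃ z z', P.S.Adj z z' ∧ P.φ z < P.φ z' ∧ (P.Lv m u z ∧ P.Lv m v z) ∧
    (P.Lv m u z' ∧ P.Lv m v z') ∧ P.pk z u v = n}

open Classical in
/-- The weight. -/
noncomputable def key (P : Data X Y) (m : ℕ) (y : Y) (u v : X) : ℕ ×ₗ (ℕ ×ₗ ℕ) :=
  toLex (if P.Sh m u v then 0 else 1, toLex (P.sk m u v, P.pk y u v))

/-- The edges of level at most `m` at `y` that are smaller than `u, v`. -/
def Below (P : Data X Y) (m : ℕ) (y : Y) (u v : X) : SimpleGraph X where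
  Adj a b := P.G.Adj a b ∧ (P.Lv m a y ∧ P.Lv m b y) ∧
    (P.key m y a b < P.key m y u v ∧ P.key m y b a < P.key m y u v)
  symm := ⟨fun _ _ h => ⟨h.1.symm, h.2.1.symm, h.2.2.symm⟩⟩
  loopless := ⟨fun _ h => P.G.loopless.irrefl _ h.1⟩

/-- The edges chosen at stage `m`. -/
def Tm (P : Data X Y) (m : ℕ) (u v : X) : Prop :=
  P.G.Adj u v ∧ (∃ y, P.Lv m u y ∧ P.Lv m v y) ∧
    ∀ y, P.Lv m u y → P.Lv m v y → ¬ (P.Glt m ⊔ P.Below m y u v).Reachable u v

/-- The conditions. -/
structure Ok (P : Data X Y) : Prop where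
  hS : P.S.IsAcyclic
  hconn : ∀ x, (P.S.induce {y | P.In x y}).Preconnected
  hr : ∀ x, P.In x (P.r x)
  hedge : ∀ u v, P.G.Adj u v → ∃ y, P.In u y ∧ P.In v y
  hcl : ∀ y z, P.S.Adj y z → ∀ u v, P.In u y → P.In u z → P.In v y → P.In v z → u ≠ v →
    P.G.Adj u v
  he : ∀ y u v, P.In u y → P.In v y → P.e y u = P.e y v → u = v
  hφ : Function.Injective P.φ

variable {P : Data X Y}

lemma Lv.mono {k m : ℕ} {x : X} {y : Y} (h : P.Lv k x y) (hkm : k ≤ m) : P.Lv m x y :=
  ⟨h.1, h.2.imp fun _ hw => hw.trans hkm⟩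

lemma Glt_mono {k m : ℕ} (h : k ≤ m) : P.Glt k ≤ P.Glt m := by
  rintro u v ⟨h1, j, h2, y, h3⟩
  exact ⟨h1, j, by omega, y, h3⟩

lemma Sh_symm {m : ℕ} {u v : X} : P.Sh m u v ↔ P.Sh m v u := by
  constructor <;>
  · rintro ⟨z, z', h, h1, h2⟩
    exact ⟨z, z', h, h1.symm, h2.symm⟩

lemma pk_symm (y : Y) (u v : X) : P.pk y u v = P.pk y v u := by
  unfold pk
  rw [max_comm, min_comm]

lemma sk_symm (m : ℕ) (u v : X) : P.sk m u v = P.sk m v u := by
  unfold sk
  congr 1
  ext n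
  constructor <;>
  · rintro ⟨z, z', h1, h2, h3, h4, h5⟩
    exact ⟨z, z', h1, h2, h3.symm, h4.symm, by rw [pk_symm]; exact h5⟩

lemma key_symm (m : ℕ) (y : Y) (u v : X) : P.key m y u v = P.key m y v u := by
  classical
  unfold key
  rw [sk_symm, pk_symm]
  congr 2
  exact if_congr Sh_symm rfl rfl

lemma below_symm (m : ℕ) (y : Y) (u v : X) : P.Below m y u v = P.Below m y v u := by
  ext a b
  simp only [Below, key_symm m y u v]

lemma Tm.symm {m : ℕ} {u v : X} (h : P.Tm m u v) : P.Tm m v u := by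
  refine ⟨h.1.symm, h.2.1.imp fun y h => h.symm, fun y h1 h2 h3 => h.2.2 y h2 h1 ?_⟩
  rw [below_symm]
  exact h3.symm

/-- The graph `T`. -/
def T (P : Data X Y) : SimpleGraph X where
  Adj u v := ∃ m, P.Tm m u v
  symm := ⟨fun _ _ h => h.imp fun _ h => h.symm⟩
  loopless := ⟨fun _ ⟨_, h⟩ => P.G.loopless.irrefl _ h.1⟩

lemma T_le : P.T ≤ P.G := fun _ _ ⟨_, h⟩ => h.1

lemma Tm.not_reach {m : ℕ} {u v : X} (h : P.Tm m u v) : ¬ (P.Glt m).Reachable u v := by
  obtain ⟨h1, ⟨y, h2, h3⟩, h4⟩ := h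
  intro h5
  exact h4 y h2 h3 (h5.mono le_sup_left)

/-- The level of an edge of `T` is determined. -/
lemma Tm.level {m k : ℕ} {u v : X} (h : P.Tm m u v) (hk : P.Tm k u v) : m = k := by
  by_contra hne
  rcases Nat.lt_or_gt_of_ne hne with hlt | hlt
  · obtain ⟨y, h1⟩ := h.2.1
    exact hk.not_reach (Adj.reachable ⟨h.1, m, hlt, y, h1⟩)
  · obtain ⟨y, h1⟩ := hk.2.1
    exact h.not_reach (Adj.reachable ⟨h.1, k, hlt, y, h1⟩)

lemma key_lt_iff (m : ℕ) (y : Y) (c d a b : X) : P.key m y c d < P.key m y a b ↔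
    (P.Sh m c d ∧ ¬ P.Sh m a b) ∨ ((P.Sh m c d ↔ P.Sh m a b) ∧
      (P.sk m c d < P.sk m a b ∨ (P.sk m c d = P.sk m a b ∧ P.pk y c d < P.pk y a b))) := by
  classical
  unfold key
  rw [Prod.Lex.toLex_lt_toLex, Prod.Lex.toLex_lt_toLex]
  by_cases h1 : P.Sh m c d <;> by_cases h2 : P.Sh m a b <;> simp [h1, h2]

lemma sh_of_key_lt {m : ℕ} {y : Y} {c d a b : X} (h : P.key m y c d < P.key m y a b)
    (h1 : P.Sh m a b) : P.Sh m c d := by
  rw [key_lt_iff] at h
  rcases h with h | h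
  · exact h.1
  · exact h.1.2 h1

lemma pk_inj (h : P.Ok) {y : Y} {a b c d : X} (ha : P.In a y) (hb : P.In b y) (hc : P.In c y)
    (hd : P.In d y) (hk : P.pk y a b = P.pk y c d) : s(a, b) = s(c, d) := by
  unfold pk at hk
  rw [Nat.pair_eq_pair] at hk
  obtain ⟨h3, h4⟩ := hk
  rw [Sym2.eq_iff]
  rcases le_total (P.e y a) (P.e y b) with h5 | h5 <;>
    rcases le_total (P.e y c) (P.e y d) with h6 | h6
  · rw [max_eq_right h5, max_eq_right h6] at h3
    rw [min_eq_left h5, min_eq_left h6] at h4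
    exact Or.inl ⟨h.he y a c ha hc h4, h.he y b d hb hd h3⟩
  · rw [max_eq_right h5, max_eq_left h6] at h3
    rw [min_eq_left h5, min_eq_right h6] at h4
    exact Or.inr ⟨h.he y a d ha hd h4, h.he y b c hb hc h3⟩
  · rw [max_eq_left h5, max_eq_right h6] at h3
    rw [min_eq_right h5, min_eq_left h6] at h4
    exact Or.inr ⟨h.he y a d ha hd h3, h.he y b c hb hc h4⟩
  · rw [max_eq_left h5, max_eq_left h6] at h3
    rw [min_eq_right h5, min_eq_right h6] at h4
    exact Or.inl ⟨h.he y a c ha hc h3, h.he y b d hb hd h4⟩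

lemma pk_of_eq {y : Y} {a b c d : X} (h : s(a, b) = s(c, d)) : P.pk y a b = P.pk y c d := by
  rw [Sym2.eq_iff] at h
  rcases h with ⟨rfl, rfl⟩ | ⟨rfl, rfl⟩
  · rfl
  · exact pk_symm _ _ _

lemma key_inj (h : P.Ok) {m : ℕ} {y : Y} {a b c d : X} (ha : P.In a y) (hb : P.In b y)
    (hc : P.In c y) (hd : P.In d y) (hk : P.key m y a b = P.key m y c d) :
    s(a, b) = s(c, d) := by
  have h1 := (Prod.ext_iff.1 (toLex.injective hk)).2
  have h2 := Prod.ext_iff.1 (toLex.injective h1)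
  exact pk_inj h ha hb hc hd h2.2

end Data

/-! ### Sides of an edge of a forest -/

/-- The two sides of an edge. -/
lemma side {S : SimpleGraph Y} {y y' t : Y} (ht : S.Reachable y t) :
    (S.deleteEdges {s(y, y')}).Reachable y t ∨ (S.deleteEdges {s(y, y')}).Reachable y' t := by
  refine reach_closed (H := S) (Z := {z | (S.deleteEdges {s(y, y')}).Reachable y z ∨
    (S.deleteEdges {s(y, y')}).Reachable y' z}) ?_ ht (Or.inl (Reachable.refl _))
  intro a b hab ha
  by_cases he : s(a, b) = s(y, y')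
  · rw [Sym2.eq_iff] at he
    rcases he with ⟨_, rfl⟩ | ⟨_, rfl⟩
    · exact Or.inr (Reachable.refl _)
    · exact Or.inl (Reachable.refl _)
  · have h1 : (S.deleteEdges {s(y, y')}).Adj a b := by
      rw [deleteEdges_adj]
      exact ⟨hab, he⟩
    exact ha.imp (fun h => h.trans h1.reachable) (fun h => h.trans h1.reachable)

lemma not_both {S : SimpleGraph Y} (hS : S.IsAcyclic) {y y' t : Y} (hyy : S.Adj y y')
    (h1 : (S.deleteEdges {s(y, y')}).Reachable y t)
    (h2 : (S.deleteEdges {s(y, y')}).Reachable y' t) : False := by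
  have hbr := isAcyclic_iff_forall_adj_isBridge.1 hS hyy
  rw [isBridge_iff] at hbr
  exact hbr (h1.trans h2.symm)

/-- A walk from one side to the other. -/
lemma cross {S : SimpleGraph Y} (hS : S.IsAcyclic) {y y' : Y} (hyy : S.Adj y y') {z t : Y}
    (w : S.Walk z t) (hz : (S.deleteEdges {s(y, y')}).Reachable y z)
    (ht : (S.deleteEdges {s(y, y')}).Reachable y' t) :
    (∃ w1 : S.Walk y t, w1.length ≤ w.length ∧ (z ≠ y → w1.length < w.length)) ∧
      ∃ w2 : S.Walk y' t, w2.length < w.length := by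
  induction w with
  | nil => exact (not_both hS hyy hz ht).elim
  | @cons a b c hadj w ih =>
    by_cases he : s(a, b) = s(y, y')
    · rw [Sym2.eq_iff] at he
      rcases he with ⟨rfl, rfl⟩ | ⟨rfl, rfl⟩
      · exact ⟨⟨Walk.cons hadj w, le_rfl, fun h => absurd rfl h⟩, w, by simp⟩
      · exact (not_both hS hyy hz (Reachable.refl _)).elim
    · have h1 : (S.deleteEdges {s(y, y')}).Adj a b := by
        rw [deleteEdges_adj]
        exact ⟨hadj, he⟩
      obtain ⟨⟨w1, h2, _⟩, w2, h3⟩ := ih (hz.trans h1.reachable) ht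
      exact ⟨⟨w1, by simp; omega, fun _ => by simp; omega⟩, w2, by simp; omega⟩

namespace Data

variable {P : Data X Y}

/-- The side of the root. -/
def Sd (P : Data X Y) (y y' : Y) (x : X) : Prop :=
  (P.S.deleteEdges {s(y, y')}).Reachable y (P.r x)

lemma sd_or {m : ℕ} {y y' : Y} {x : X} (h : P.Lv m x y) : P.Sd y y' x ∨ P.Sd y' y x := by
  obtain ⟨_, w, _⟩ := h
  have h1 := side (y' := y') (Nonempty.intro w : P.S.Reachable y (P.r x))
  unfold Sd
  rw [show s(y', y) = s(y, y') from Sym2.eq_swap]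
  exact h1

lemma sd_not (h : P.Ok) {y y' : Y} (hyy : P.S.Adj y y') {x : X} (h1 : P.Sd y y' x)
    (h2 : P.Sd y' y x) : False := by
  unfold Sd at h1 h2
  rw [show s(y', y) = s(y, y') from Sym2.eq_swap] at h2
  exact not_both h.hS hyy h1 h2

/-- A point seen from the other side of its root. -/
lemma lv_cross (h : P.Ok) {y y' : Y} (hyy : P.S.Adj y y') {m : ℕ} {x : X} {t : Y}
    (hx : P.Lv m x t) (ht : (P.S.deleteEdges {s(y, y')}).Reachable y t) (hr : P.Sd y' y x) :
    P.Lv m x y ∧ P.Lv m x y' ∧ ∃ k, k < m ∧ P.Lv k x y' ∧ (t ≠ y → P.Lv k x y) := by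
  unfold Sd at hr
  rw [show s(y', y) = s(y, y') from Sym2.eq_swap] at hr
  have hin : P.In x y ∧ P.In x y' := by
    by_contra hcon
    have h1 := reach_delete (h.hconn x) hx.1 (h.hr x) hcon
    exact not_both h.hS hyy (ht.trans h1) hr
  obtain ⟨_, w, hw⟩ := hx
  obtain ⟨⟨w1, h1, h2⟩, w2, h3⟩ := cross h.hS hyy w ht hr
  refine ⟨⟨hin.1, w1, h1.trans hw⟩, ⟨hin.2, w2, by omega⟩, m - 1, by omega, ⟨hin.2, w2, by omega⟩,
    fun h4 => ⟨hin.1, w1, ?_⟩⟩
  have := h2 h4
  omega

/-- Nodes near the root of `x` form a subtree. -/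
lemma lv_conn (h : P.Ok) (m : ℕ) (x : X) : (P.S.induce {y | P.Lv m x y}).Preconnected := by
  classical
  have key : ∀ y (hy : P.Lv m x y), (P.S.induce {y | P.Lv m x y}).Reachable ⟨y, hy⟩
      ⟨P.r x, ⟨h.hr x, Walk.nil, by simp⟩⟩ := by
    intro y hy
    obtain ⟨hy1, w, hw⟩ := id hy
    -- a path in the subtree, of length at most `m`
    have h1 := path_in h.hS (h.hconn x) hy1 (h.hr x) w.bypass w.bypass_isPath
    have h2 : ∀ t ∈ w.bypass.support, P.Lv m x t := by
      intro t ht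
      refine ⟨h1 t ht, w.bypass.dropUntil t ht, ?_⟩
      exact (w.bypass.length_dropUntil_le_length ht).trans (w.length_bypass_le_length.trans hw)
    exact ⟨w.bypass.induce _ h2⟩
  rintro ⟨y, hy⟩ ⟨z, hz⟩
  exact (key y hy).trans (key z hz).symm

/-- Points common to neighbouring parts are joined below if they are low at a common node. -/
lemma join_low (h : P.Ok) {y y' : Y} (hyy : P.S.Adj y y') {m k k' : ℕ} {a b : X}
    (ha : P.Lv k a y) (ha' : P.In a y') (hb : P.Lv k' b y) (hb' : P.In b y') (hk : k < m)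
    (hk' : k' < m) : (P.Glt m).Reachable a b := by
  by_cases hab : a = b
  · subst hab
    exact Reachable.refl _
  · apply Adj.reachable
    refine ⟨h.hcl y y' hyy a b ha.1 ha' hb.1 hb' hab, max k k', max_lt hk hk', y, ?_, ?_⟩
    · exact ha.mono (le_max_left _ _)
    · exact hb.mono (le_max_right _ _)

/-- A point of level `m` at both ends is lower at the end near its root. -/
lemma low (h : P.Ok) {y y' : Y} (hyy : P.S.Adj y y') {m : ℕ} {a : X} (ha' : P.Lv m a y')
    (hs : P.Sd y y' a) : ∃ k, k < m ∧ P.Lv k a y := by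
  obtain ⟨_, _, k, hk, h1, _⟩ := lv_cross h hyy.symm ha' (Reachable.refl _) hs
  exact ⟨k, hk, h1⟩

/-- Roots on the same side. -/
lemma same_side (h : P.Ok) {y y' : Y} (hyy : P.S.Adj y y') {m : ℕ} {a b : X}
    (ha' : P.Lv m a y') (hb' : P.Lv m b y') (hsa : P.Sd y y' a)
    (hsb : P.Sd y y' b) : (P.Glt m).Reachable a b := by
  obtain ⟨k, hk, h1⟩ := low h hyy ha' hsa
  obtain ⟨k', hk', h2⟩ := low h hyy hb' hsb
  exact join_low h hyy h1 ha'.1 h2 hb'.1 hk hk'

/-- A point that is low at both ends. -/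
lemma low_both (h : P.Ok) {y y' : Y} (hyy : P.S.Adj y y') {m k : ℕ} {a x : X} (ha : P.Lv m a y)
    (ha' : P.Lv m a y') (hk : k < m) (hx : P.Lv k x y) (hx' : P.Lv k x y') :
    (P.Glt m).Reachable a x := by
  rcases sd_or (y' := y') ha with hs | hs
  · obtain ⟨k', hk', h1⟩ := low h hyy ha' hs
    exact join_low h hyy h1 ha'.1 hx hx'.1 hk' hk
  · obtain ⟨k', hk', h1⟩ := low h hyy.symm ha hs
    exact join_low h hyy.symm h1 ha.1 hx' hx.1 hk' hk

/-- If a class has roots on both sides, it has a low point at both ends. -/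
lemma glt_cross (h : P.Ok) {y y' : Y} (hyy : P.S.Adj y y') {m : ℕ} {x x' : X}
    (hr : (P.Glt m).Reachable x x') (hx : P.Sd y y' x) (hx' : P.Sd y' y x') :
    ∃ x'' k, (P.Glt m).Reachable x x'' ∧ k < m ∧ P.Lv k x'' y ∧ P.Lv k x'' y' := by
  by_contra hcon
  push Not at hcon
  have h1 := reach_closed (H := P.Glt m) (Z := {z | (P.Glt m).Reachable x z ∧ P.Sd y y' z}) ?_ hr
    ⟨Reachable.refl _, hx⟩
  · exact sd_not h hyy h1.2 hx'
  · rintro a b hab ⟨ha1, ha2⟩
    have hb1 := ha1.trans hab.reachable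
    refine ⟨hb1, ?_⟩
    obtain ⟨_, k, hk, t, h2, h3⟩ := hab
    -- the side of `t`
    have hyt : P.S.Reachable y t := by
      obtain ⟨_, w, _⟩ := h2
      have h4 : P.S.Reachable y (P.r a) := Reachable.mono (deleteEdges_le _) ha2
      exact h4.trans ⟨w.reverse⟩
    have hb3 : P.Sd y y' b ∨ P.Sd y' y b := by
      obtain ⟨_, w, _⟩ := h3
      have h4 := side (y' := y') (hyt.trans ⟨w⟩ : P.S.Reachable y (P.r b))
      unfold Sd
      rw [show s(y', y) = s(y, y') from Sym2.eq_swap]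
      exact h4
    rcases hb3 with hb3 | hb3
    · exact hb3
    exfalso
    rcases side (y' := y') hyt with ht | ht
    · obtain ⟨h4, h5, _⟩ := lv_cross h hyy h3 ht hb3
      exact hcon b k hb1 hk h4 h5
    · rw [show s(y, y') = s(y', y) from Sym2.eq_swap] at ht
      obtain ⟨h4, h5, _⟩ := lv_cross h hyy.symm h2 ht ha2
      exact hcon a k ha1 hk h5 h4

end Data

end Pool.Agent.Helper3.CA
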