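import Pool.Agent.Helper3.CA.Lev

/-!
# The link lemma and connectivity
-/

namespace Pool.Agent.Helper3.CA

open SimpleGraph Pool.Agent.Helper3.TD

variable {X Y : Type*}

namespace Data

variable {P : Data X Y}

/-- A pair with two common nodes has two adjacent common nodes. -/
lemma sh_adj (h : P.Ok) {m : ℕ} {u v : X} {y z : Y} (hyz : y ≠ z) (hy : P.Lv m u y ∧ P.Lv m v y)
    (hz : P.Lv m u z ∧ P.Lv m v z) : ∃ y', P.S.Adj y y' ∧ P.Lv m u y' ∧ P.Lv m v y' := by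
  obtain ⟨w⟩ := nodes_connected h.hS (In := P.Lv m) (lv_conn h m) u v ⟨y, hy⟩ ⟨z, hz⟩
  cases w with
  | nil => exact absurd rfl hyz
  | @cons _ b _ hadj _ => exact ⟨b.1, hadj, b.2⟩

/-- Points of different classes common to neighbouring parts have roots on different sides. -/
lemma sides (h : P.Ok) {y y' : Y} (hyy : P.S.Adj y y') {m : ℕ} {u v : X} (hu : P.Lv m u y)
    (hu' : P.Lv m u y') (hv : P.Lv m v y) (hv' : P.Lv m v y') (hn : ¬ (P.Glt m).Reachable u v) :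
    (P.Sd y y' u ∧ P.Sd y' y v) ∨ (P.Sd y' y u ∧ P.Sd y y' v) := by
  rcases sd_or (y' := y') hu with h1 | h1 <;> rcases sd_or (y' := y') hv with h2 | h2
  · exact absurd (same_side h hyy hu' hv' h1 h2) hn
  · exact Or.inl ⟨h1, h2⟩
  · exact Or.inr ⟨h1, h2⟩
  · exact absurd (same_side h hyy.symm hu hv h1 h2) hn

/-- Points of different classes have at most two common nodes. -/
lemma only_two (h : P.Ok) {y y' : Y} (hyy : P.S.Adj y y') {m : ℕ} {u v : X} (hu : P.Lv m u y)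
    (hu' : P.Lv m u y') (hv : P.Lv m v y) (hv' : P.Lv m v y') (hsu : P.Sd y y' u)
    (hsv : P.Sd y' y v) (hn : ¬ (P.Glt m).Reachable u v) {z : Y} (hz : P.Lv m u z)
    (hz' : P.Lv m v z) : z = y ∨ z = y' := by
  by_contra hcon
  push Not at hcon
  have hyz : P.S.Reachable y z := by
    obtain ⟨_, w, _⟩ := hz
    obtain ⟨_, w', _⟩ := hu
    exact ⟨w'.append w.reverse⟩
  rcases side (y' := y') hyz with ht | ht
  · obtain ⟨_, _, k, hk, h1, h2⟩ := lv_cross h hyy hz' ht hsv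
    exact hn (low_both h hyy hu hu' hk (h2 hcon.1) h1)
  · rw [show s(y, y') = s(y', y) from Sym2.eq_swap] at ht
    obtain ⟨_, _, k, hk, h1, h2⟩ := lv_cross h hyy.symm hz ht hsu
    exact hn (low_both h hyy hv hv' hk h1 (h2 hcon.2)).symm

/-- The roots of a class lie in one component of `S`. -/
lemma glt_node {m : ℕ} {x x' : X} (hr : (P.Glt m).Reachable x x') :
    P.S.Reachable (P.r x) (P.r x') := by
  refine reach_closed (H := P.Glt m) (Z := {z | P.S.Reachable (P.r x) (P.r z)}) ?_ hr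
    (Reachable.refl _)
  rintro a b ⟨_, k, _, t, ⟨_, w, _⟩, ⟨_, w', _⟩⟩ ha
  exact (show P.S.Reachable (P.r x) (P.r a) from ha).trans ⟨w.reverse.append w'⟩

lemma sd_or' {y y' : Y} {x : X} (h : P.S.Reachable y (P.r x)) : P.Sd y y' x ∨ P.Sd y' y x := by
  have h1 := side (y' := y') h
  unfold Sd
  rw [show s(y', y) = s(y, y') from Sym2.eq_swap]
  exact h1

/-- The least edge at an adhesion set is not removed. -/
lemma link_y (h : P.Ok) {y y' : Y} (hyy : P.S.Adj y y') {m : ℕ} {a b : X} (ha : P.Lv m a y)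
    (ha' : P.Lv m a y') (hb : P.Lv m b y) (hb' : P.Lv m b y')
    (hsb : P.Sd y' y b) (hn : ¬ (P.Glt m).Reachable a b)
    (hmin : ∀ c d, P.Lv m c y → P.Lv m c y' → P.Lv m d y → P.Lv m d y' → P.Sd y y' c →
      P.Sd y' y d → ¬ P.key m y c d < P.key m y a b) :
    ¬ (P.Glt m ⊔ P.Below m y a b).Reachable a b := by
  intro hr
  have hcontra : ∀ x, (P.Glt m).Reachable b x → ∀ k, k < m → P.Lv k x y → P.Lv k x y' → False :=
    fun x hx k hk h1 h2 => hn ((low_both h hyy ha ha' hk h1 h2).trans hx.symm)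
  have hSh : P.Sh m a b := ⟨y, y', hyy.ne, ⟨ha, hb⟩, ⟨ha', hb'⟩⟩
  have h1 := reach_closed (H := P.Glt m ⊔ P.Below m y a b)
    (Z := {x | (P.Glt m).Reachable b x ∧ P.Sd y' y x}) ?_ hr.symm ⟨Reachable.refl _, hsb⟩
  · exact hn h1.1.symm
  rintro c d hcd ⟨hc1, hc2⟩
  rcases hcd with hcd | hcd
  · have hd1 : (P.Glt m).Reachable b d := hc1.trans hcd.reachable
    refine ⟨hd1, ?_⟩
    have h2 : P.S.Reachable y (P.r d) := by
      obtain ⟨_, w, _⟩ := hb
      exact Reachable.trans ⟨w⟩ (glt_node hd1)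
    rcases sd_or' (y' := y') h2 with h3 | h3
    · exfalso
      obtain ⟨x, k, h4, h5, h6, h7⟩ := glt_cross h hyy hd1.symm h3 hsb
      exact hcontra x (hd1.trans h4) k h5 h6 h7
    · exact h3
  · obtain ⟨hG, ⟨hcy, hdy⟩, hk1, hk2⟩ := hcd
    rcases sd_or (y' := y') hdy with h3 | h3
    · exfalso
      obtain ⟨z1, z2, hz12, hz1, hz2⟩ := sh_of_key_lt hk1 hSh
      obtain ⟨y'', hy'', hcy'', hdy''⟩ : ∃ y'', P.S.Adj y y'' ∧ P.Lv m c y'' ∧ P.Lv m d y'' := by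
        by_cases hz : y = z1
        · exact sh_adj h (fun h4 => hz12 (hz.symm.trans h4)) ⟨hcy, hdy⟩ hz2
        · exact sh_adj h hz ⟨hcy, hdy⟩ hz1
      by_cases hyy'' : y'' = y'
      · subst hyy''
        exact hmin d c hdy hdy'' hcy hcy'' h3 hc2 hk2
      · have ht : (P.S.deleteEdges {s(y, y')}).Reachable y y'' := by
          apply Adj.reachable
          rw [deleteEdges_adj]
          refine ⟨hy'', ?_⟩
          rw [Set.mem_singleton_iff, Sym2.eq_iff]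
          rintro (⟨_, h4⟩ | ⟨h4, _⟩)
          · exact hyy'' h4
          · exact hyy.ne h4
        obtain ⟨_, _, k, hk, h4, h5⟩ := lv_cross h hyy hcy'' ht hc2
        exact hcontra c hc1 k hk (h5 hy''.ne') h4
    · exact ⟨hc1.trans (same_side h hyy.symm hcy hdy hc2 h3), h3⟩

/-- The weight of a link. -/
lemma sk_eq (h : P.Ok) {y y' : Y} (hyy : P.S.Adj y y') {m : ℕ} {u v : X} (hu : P.Lv m u y)
    (hu' : P.Lv m u y') (hv : P.Lv m v y) (hv' : P.Lv m v y') (hsu : P.Sd y y' u)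
    (hsv : P.Sd y' y v) (hn : ¬ (P.Glt m).Reachable u v) :
    (P.φ y < P.φ y' ∧ P.sk m u v = P.pk y u v) ∨ (P.φ y' < P.φ y ∧ P.sk m u v = P.pk y' u v) := by
  have key : ∀ z z', P.S.Adj z z' → P.φ z < P.φ z' → (P.Lv m u z ∧ P.Lv m v z) →
      (P.Lv m u z' ∧ P.Lv m v z') → (z = y ∧ z' = y') ∨ (z = y' ∧ z' = y) := by
    intro z z' hzz _ hz hz'
    rcases only_two h hyy hu hu' hv hv' hsu hsv hn hz.1 hz.2 with h1 | h1 <;>
      rcases only_two h hyy hu hu' hv hv' hsu hsv hn hz'.1 hz'.2 with h2 | h2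
    · exact absurd (h1.trans h2.symm) hzz.ne
    · exact Or.inl ⟨h1, h2⟩
    · exact Or.inr ⟨h1, h2⟩
    · exact absurd (h1.trans h2.symm) hzz.ne
  rcases lt_trichotomy (P.φ y) (P.φ y') with h1 | h1 | h1
  · left
    refine ⟨h1, ?_⟩
    have h2 : {n | ∃ z z', P.S.Adj z z' ∧ P.φ z < P.φ z' ∧ (P.Lv m u z ∧ P.Lv m v z) ∧
        (P.Lv m u z' ∧ P.Lv m v z') ∧ P.pk z u v = n} = {P.pk y u v} := by
      ext n
      constructor
      · rintro ⟨z, z', h3, h4, h5, h6, rfl⟩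
        rcases key z z' h3 h4 h5 h6 with ⟨rfl, rfl⟩ | ⟨rfl, rfl⟩
        · rfl
        · exact absurd h1 (not_lt.2 h4.le)
      · rintro rfl
        exact ⟨y, y', hyy, h1, ⟨hu, hv⟩, ⟨hu', hv'⟩, rfl⟩
    unfold sk
    rw [h2]
    exact csInf_singleton _
  · exact absurd (h.hφ h1) hyy.ne
  · right
    refine ⟨h1, ?_⟩
    have h2 : {n | ∃ z z', P.S.Adj z z' ∧ P.φ z < P.φ z' ∧ (P.Lv m u z ∧ P.Lv m v z) ∧
        (P.Lv m u z' ∧ P.Lv m v z') ∧ P.pk z u v = n} = {P.pk y' u v} := by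
      ext n
      constructor
      · rintro ⟨z, z', h3, h4, h5, h6, rfl⟩
        rcases key z z' h3 h4 h5 h6 with ⟨rfl, rfl⟩ | ⟨rfl, rfl⟩
        · exact absurd h1 (not_lt.2 h4.le)
        · rfl
      · rintro rfl
        exact ⟨y', y, hyy.symm, h1, ⟨hu', hv'⟩, ⟨hu, hv⟩, rfl⟩
    unfold sk
    rw [h2]
    exact csInf_singleton _

/-- The link lemma. -/
lemma link (h : P.Ok) {y y' : Y} (hyy : P.S.Adj y y') {m : ℕ} {u v : X} (hu : P.Lv m u y)
    (hu' : P.Lv m u y') (hv : P.Lv m v y) (hv' : P.Lv m v y') (hsu : P.Sd y y' u)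
    (hsv : P.Sd y' y v) (hn : ¬ (P.Glt m).Reachable u v) :
    ∃ a b, P.Tm m a b ∧ (P.Lv m a y ∧ P.Lv m b y) ∧ (P.Lv m a y' ∧ P.Lv m b y') ∧
      (P.Glt m).Reachable u a ∧ (P.Glt m).Reachable v b := by
  classical
  let F : Set (X × X) := {q | (P.Lv m q.1 y ∧ P.Lv m q.2 y) ∧
    (P.Lv m q.1 y' ∧ P.Lv m q.2 y') ∧ P.Sd y y' q.1 ∧ P.Sd y' y q.2}
  have hne : F.Nonempty := ⟨(u, v), ⟨hu, hv⟩, ⟨hu', hv'⟩, hsu, hsv⟩
  obtain ⟨⟨a, b⟩, hab, hmin⟩ := WellFounded.has_min (measure fun q : X × X => P.sk m q.1 q.2).wf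
    F hne
  obtain ⟨⟨ha, hb⟩, ⟨ha', hb'⟩, hsa, hsb⟩ := hab
  have hcls : ∀ c d, P.Lv m c y → P.Lv m c y' → P.Lv m d y → P.Lv m d y' → P.Sd y y' c →
      P.Sd y' y d → (P.Glt m).Reachable u c ∧ (P.Glt m).Reachable v d ∧
        ¬ (P.Glt m).Reachable c d := by
    intro c d h1 h2 h3 h4 h5 h6
    have h7 : (P.Glt m).Reachable u c := same_side h hyy hu' h2 hsu h5
    have h8 : (P.Glt m).Reachable v d := same_side h hyy.symm hv h3 hsv h6
    exact ⟨h7, h8, fun h9 => hn ((h7.trans h9).trans h8.symm)⟩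
  obtain ⟨hua, hvb, hn'⟩ := hcls a b ha ha' hb hb' hsa hsb
  -- minimality, at both nodes
  have h1 : ∀ z, (z = y ∨ z = y') → ∀ c d, P.Lv m c y → P.Lv m c y' → P.Lv m d y →
      P.Lv m d y' → P.Sd y y' c → P.Sd y' y d → ¬ P.key m z c d < P.key m z a b := by
    intro z hz c d h1 h2 h3 h4 h5 h6 h7
    obtain ⟨_, _, hn2⟩ := hcls c d h1 h2 h3 h4 h5 h6
    have hS1 : P.Sh m a b := ⟨y, y', hyy.ne, ⟨ha, hb⟩, ⟨ha', hb'⟩⟩
    have hS2 : P.Sh m c d := ⟨y, y', hyy.ne, ⟨h1, h3⟩, ⟨h2, h4⟩⟩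
    rw [key_lt_iff] at h7
    rcases h7 with h7 | ⟨_, h7 | ⟨h7, h8⟩⟩
    · exact h7.2 hS1
    · exact hmin (c, d) ⟨⟨h1, h3⟩, ⟨h2, h4⟩, h5, h6⟩ h7
    · have h9 : s(c, d) = s(a, b) := by
        rcases sk_eq h hyy ha ha' hb hb' hsa hsb hn' with ⟨h10, h11⟩ | ⟨h10, h11⟩ <;>
          rcases sk_eq h hyy h1 h2 h3 h4 h5 h6 hn2 with ⟨h12, h13⟩ | ⟨h12, h13⟩
        · rw [h11, h13] at h7
          exact pk_inj h h1.1 h3.1 ha.1 hb.1 h7
        · exact absurd h10 (not_lt.2 h12.le)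
        · exact absurd h10 (not_lt.2 h12.le)
        · rw [h11, h13] at h7
          exact pk_inj h h2.1 h4.1 ha'.1 hb'.1 h7
      rw [pk_of_eq h9] at h8
      exact lt_irrefl _ h8
  have hab' : a ≠ b := by
    rintro rfl
    exact hn' (Reachable.refl _)
  refine ⟨a, b, ⟨h.hcl y y' hyy a b ha.1 ha'.1 hb.1 hb'.1 hab', ⟨y, ha, hb⟩, ?_⟩, ⟨ha, hb⟩,
    ⟨ha', hb'⟩, hua, hvb⟩
  intro z hz hz'
  rcases only_two h hyy ha ha' hb hb' hsa hsb hn' hz hz' with rfl | rfl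
  · exact link_y h hyy ha ha' hb hb' hsb hn' (h1 z (Or.inl rfl))
  · intro h2
    rw [below_symm] at h2
    refine link_y h hyy.symm hb' hb ha' ha hsa (fun h3 => hn' h3.symm) ?_ h2.symm
    intro c d h3 h4 h5 h6 h7 h8 h9
    rw [key_symm m z c d, key_symm m z b a] at h9
    exact h1 z (Or.inr rfl) d c h6 h5 h4 h3 h8 h7 h9

/-- The link lemma, without sides. -/
lemma link' (h : P.Ok) {y y' : Y} (hyy : P.S.Adj y y') {m : ℕ} {u v : X} (hu : P.Lv m u y)
    (hu' : P.Lv m u y') (hv : P.Lv m v y) (hv' : P.Lv m v y') (hn : ¬ (P.Glt m).Reachable u v) :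
    ∃ a b, P.Tm m a b ∧ (P.Lv m a y ∧ P.Lv m b y) ∧ (P.Lv m a y' ∧ P.Lv m b y') ∧
      (P.Glt m).Reachable u a ∧ (P.Glt m).Reachable v b := by
  rcases sides h hyy hu hu' hv hv' hn with ⟨h1, h2⟩ | ⟨h1, h2⟩
  · exact link h hyy hu hu' hv hv' h1 h2 hn
  · obtain ⟨a, b, h3, h4, h5, h6, h7⟩ := link h hyy.symm hu' hu hv' hv h1 h2 hn
    exact ⟨a, b, h3, h5, h4, h6, h7⟩

/-- The edges of level at most `m` are joined in `T`, if the smaller ones are. -/
lemma stage (h : P.Ok) {m : ℕ} (hm : ∀ u v, (P.Glt m).Reachable u v → P.T.Reachable u v) (y : Y)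
    (u v : X) (huv : P.G.Adj u v) (hu : P.Lv m u y) (hv : P.Lv m v y) : P.T.Reachable u v := by
  classical
  suffices H : ∀ k, ∀ u v, P.G.Adj u v → P.Lv m u y → P.Lv m v y →
      P.key m y u v = k → P.T.Reachable u v from
    H _ u v huv hu hv rfl
  intro k
  induction k using WellFoundedLT.induction with
  | _ k ih =>
    intro u v huv hu hv hk
    by_cases hr : (P.Glt m).Reachable u v
    · exact hm u v hr
    by_cases hT : P.Tm m u v
    · exact Adj.reachable ⟨m, hT⟩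
    by_cases hSh : P.Sh m u v
    · obtain ⟨z1, z2, hz12, hz1, hz2⟩ := hSh
      obtain ⟨y', hy', hu', hv'⟩ := sh_adj h hz12 hz1 hz2
      obtain ⟨a, b, h1, _, _, h2, h3⟩ := link' h hy' hz1.1 hu' hz1.2 hv' hr
      have h4 : P.T.Reachable a b := Adj.reachable ⟨m, h1⟩
      exact ((hm u a h2).trans h4).trans (hm v b h3).symm
    · have h1 : ∃ z, P.Lv m u z ∧ P.Lv m v z ∧ (P.Glt m ⊔ P.Below m z u v).Reachable u v := by
        by_contra hcon
        push Not at hcon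
        exact hT ⟨huv, ⟨y, hu, hv⟩, hcon⟩
      obtain ⟨z, hz1, hz2, h2⟩ := h1
      have hzy : z = y := by
        by_contra hne
        exact hSh ⟨z, y, hne, ⟨hz1, hz2⟩, ⟨hu, hv⟩⟩
      subst hzy
      refine reach_of_adj ?_ h2
      intro c d hcd
      rcases hcd with hcd | hcd
      · exact hm c d hcd.reachable
      · obtain ⟨hG, ⟨hc, hd⟩, hk', _⟩ := hcd
        exact ih _ (hk ▸ hk') c d hG hc hd rfl

lemma glt_T (h : P.Ok) (m : ℕ) : ∀ u v, (P.Glt m).Reachable u v → P.T.Reachable u v := by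
  induction m with
  | zero =>
    intro u v hr
    refine reach_of_adj ?_ hr
    rintro a b ⟨_, k, hk, _⟩
    exact absurd hk (Nat.not_lt_zero k)
  | succ m ih =>
    intro u v hr
    refine reach_of_adj ?_ hr
    rintro a b ⟨hG, k, hk, y, ha, hb⟩
    exact stage h ih y a b hG (ha.mono (by omega)) (hb.mono (by omega))

/-- Every edge has a level. -/
lemma exists_level (h : P.Ok) {u v : X} (huv : P.G.Adj u v) : ∃ m, ∃ y, P.Lv m u y ∧ P.Lv m v y := by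
  obtain ⟨y, hu, hv⟩ := h.hedge u v huv
  have key : ∀ x, P.In x y → ∃ m, P.Lv m x y := by
    intro x hx
    obtain ⟨w⟩ := h.hconn x ⟨y, hx⟩ ⟨P.r x, h.hr x⟩
    exact ⟨_, hx, w.map (Embedding.induce _).toHom, le_rfl⟩
  obtain ⟨m, hm⟩ := key u hu
  obtain ⟨m', hm'⟩ := key v hv
  exact ⟨max m m', y, hm.mono (le_max_left _ _), hm'.mono (le_max_right _ _)⟩

/-- `T` has the components of `G`. -/
lemma T_reach (h : P.Ok) {u v : X} (huv : P.G.Adj u v) : P.T.Reachable u v := by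
  obtain ⟨m, y, h1, h2⟩ := exists_level h huv
  exact glt_T h (m + 1) u v (Adj.reachable ⟨huv, m, by omega, y, h1, h2⟩)

end Data

end Pool.Agent.Helper3.CA
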